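import Pool.Agent.T2H84.SJ.Stm

/-!
# Symmetric squares and syzygetic ideals

For an `A`-module `M`, `SymSq A M` is the symmetric square of `M`: `M ⊗ M` modulo the relations `x ⊗ y = y ⊗ x`. For an ideal
`J` the inclusion `J → A` induces the natural map `Sym² J → A`, whose image is `J²`; `delta A J` is its kernel.
-/

set_option autoImplicit false

namespace Pool.Agent.T2H84.SJ.Sq

open TensorProduct

universe u

section

variable (A : Type u) [CommRing A] (M : Type u) [AddCommGroup M] [Module A M]

/-- the submodule of `M ⊗ M` spanned by all `x ⊗ y - y ⊗ x` -/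
def symRel : Submodule A (M ⊗[A] M) := Submodule.span A {t | ∃ x y : M, t = x ⊗ₜ[A] y - y ⊗ₜ[A] x}

/-- the symmetric square of `M` -/
def SymSq : Type u := (M ⊗[A] M) ⧸ symRel A M

noncomputable instance instAddCommGroupSymSq : AddCommGroup (SymSq A M) :=
  Submodule.Quotient.addCommGroup (symRel A M)

noncomputable instance instModuleSymSq : Module A (SymSq A M) :=
  Submodule.Quotient.module (symRel A M)

variable {A M} in
theorem symRel_le (f : M →ₗ[A] A) :
    symRel A M ≤ LinearMap.ker (LinearMap.mul' A A ∘ₗ TensorProduct.map f f) := by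
  rw [symRel, Submodule.span_le]
  rintro _ ⟨x, y, rfl⟩
  simp [mul_comm]

variable {A M} in
/-- the linear map `Sym² M → A`, `x y ↦ f(x) f(y)`, induced by a linear map `f : M → A` -/
noncomputable def sqMap (f : M →ₗ[A] A) : SymSq A M →ₗ[A] A :=
  (symRel A M).liftQ (LinearMap.mul' A A ∘ₗ TensorProduct.map f f) (symRel_le f)

end

section

variable {A : Type u} [CommRing A]

/-- `δ(J)`: the kernel of the natural map `Sym² J → A` (with image `J²`) -/
noncomputable def delta (J : Ideal A) : Submodule A (SymSq A J) :=
  LinearMap.ker (sqMap (Submodule.subtype J))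

/-- `J` is syzygetic: `δ(J) = 0` -/
def IsSyzygetic (J : Ideal A) : Prop := delta J = ⊥

theorem isSyzygetic_of (J : Ideal A) (h : Pool.Agent.T2H84.SJ.delta J = ⊥) : IsSyzygetic J := h

end

end Pool.Agent.T2H84.SJ.Sq
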