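import Pool.Agent.T2H84.SJ.Stm

set_option autoImplicit false

namespace Pool.Agent.T2H84.SJ

open MvPolynomial Matrix TensorProduct

universe u

theorem T_CIR : P_CIR.{u} := by
  intro k _ m al h1 h2 h3 h4
  refine ⟨h1, h2, ?_, h3⟩
  intro i j t hij hti htj
  by_contra hcon
  let S0 : Finset (Fin m) := {i, j, t}
  have hi : i ∈ S0 := by simp [S0]
  have hj : j ∈ S0 := by simp [S0]
  have ht : t ∈ S0 := by simp [S0]
  have hS0 : ¬ LinearIndependent k (fun x : S0 => al x) := by
    intro h
    apply hcon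
    let e : Fin 3 → S0 := ![⟨i, hi⟩, ⟨j, hj⟩, ⟨t, ht⟩]
    have he : Function.Injective e := by
      intro a b hab
      have hab' : (e a : Fin m) = (e b : Fin m) := congrArg _ hab
      fin_cases a <;> fin_cases b <;> simp_all [e]
    have h5 := h.comp e he
    convert h5 using 1
    ext x p
    fin_cases x <;> rfl
  obtain ⟨S, ⟨hS1, hS2⟩, hmin⟩ := WellFounded.has_min (α := Finset (Fin m)) (r := (· ⊂ ·))
    Finset.isWellFounded_ssubset.wf {S | ¬ LinearIndependent k (fun x : S => al x) ∧ S ⊆ S0}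
    ⟨S0, hS0, Finset.Subset.refl _⟩
  have hcirc : IsCircuit al S := by
    refine ⟨hS1, fun T hT => ?_⟩
    by_contra hT2
    exact hmin T ⟨hT2, hT.1.trans hS2⟩ hT
  have h6 := h4 S hcirc
  have h7 : S.card ≤ S0.card := Finset.card_le_card hS2
  have h8 : S0.card ≤ 3 := Finset.card_le_three
  omega

end Pool.Agent.T2H84.SJ
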