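import Pool.Agent.T2H84.SJ.Stm

set_option autoImplicit false

namespace Pool.Agent.T2H84.SJ

open MvPolynomial Matrix TensorProduct

universe u

theorem T_CRT : P_CRT.{u} := by
  intro hD2 A _ m l S hG c hc
  have key : ∀ T : Finset (Fin m), T ⊆ S → ∃ h : A, ∀ i ∈ T, c i - h ∈ Ideal.span {l i} := by
    intro T
    induction T using Finset.induction_on with
    | empty => exact fun _ => ⟨0, fun i hi => absurd hi (Finset.notMem_empty i)⟩
    | insert j T hj ih =>
      intro hTS
      have hTS' : T ⊆ S := fun t ht => hTS (Finset.mem_insert_of_mem ht)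
      have hjS : j ∈ S := hTS (Finset.mem_insert_self j T)
      obtain ⟨h, hh⟩ := ih hTS'
      have hne : ∀ t ∈ T, j ≠ t := fun t ht e => hj (e ▸ ht)
      have h1 : h - c j ∈ Ideal.span {l j, ∏ t ∈ T, l t} := by
        refine hD2 A m l j T hj (fun t ht => hG.p2 j hjS t (hTS' ht) (hne t ht)) ?_ (h - c j) ?_
        · intro t ht s hs hst
          exact hG.n2 j hjS t (hTS' ht) s (hTS' hs) (hne t ht) (hne s hs).symm hst
        · intro t ht
          have h2 : c t - h ∈ Ideal.span {l j, l t} :=
            Ideal.span_mono (by simp) (hh t ht)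
          have h3 : c j - c t ∈ Ideal.span {l j, l t} := hc j hjS t (hTS' ht) (hne t ht)
          have h4 : h - c j = -((c t - h) + (c j - c t)) := by ring
          rw [h4]
          exact Ideal.neg_mem_iff _ |>.2 (Ideal.add_mem _ h2 h3)
      obtain ⟨a, b, hab⟩ := Ideal.mem_span_pair.1 h1
      refine ⟨h - b * ∏ t ∈ T, l t, fun i hi => ?_⟩
      rcases Finset.mem_insert.1 hi with rfl | hi
      · rw [Ideal.mem_span_singleton]
        refine ⟨-a, ?_⟩
        have : c i = h - (a * l i + b * ∏ t ∈ T, l t) := by rw [hab]; ring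
        rw [this]
        ring
      · have h5 : c i - (h - b * ∏ t ∈ T, l t) = (c i - h) + b * ∏ t ∈ T, l t := by ring
        rw [h5]
        refine Ideal.add_mem _ (hh i hi) (Ideal.mul_mem_left _ _ ?_)
        rw [Ideal.mem_span_singleton]
        exact Finset.dvd_prod_of_mem l hi
  exact key S (Finset.Subset.refl S)

end Pool.Agent.T2H84.SJ
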