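import Pool.Agent.T2H84.SJ.Stm

set_option autoImplicit false

namespace Pool.Agent.T2H84.SJ

open MvPolynomial Matrix TensorProduct

universe u

section CVaux

variable {k : Type u} [Field k] {m : ℕ} (al : Fin m → Fin 4 → k)

lemma CV_fv (p : Fin 4) : fv al p =
    ∑ i, (∏ j ∈ Finset.univ.erase i, ll al j) * C (al i p) := by
  unfold fv hv
  simp only [MvPolynomial.algebraMap_eq]

lemma CV_prod_l (i l : Fin m) (h : i ≠ l) :
    ll al l * (∏ j ∈ (Finset.univ.erase l).erase i, ll al j) = ∏ j ∈ Finset.univ.erase i, ll al j := by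
  rw [Finset.erase_right_comm, Finset.mul_prod_erase]
  exact Finset.mem_erase.mpr ⟨h.symm, Finset.mem_univ l⟩

lemma CV_prod_i (i l : Fin m) (h : i ≠ l) :
    ll al i * (∏ j ∈ (Finset.univ.erase l).erase i, ll al j) = ∏ j ∈ Finset.univ.erase l, ll al j := by
  rw [Finset.mul_prod_erase]
  exact Finset.mem_erase.mpr ⟨h, Finset.mem_univ i⟩

lemma CV_one (l : Fin m) (p q : Fin 4) :
    ll al l * Cv al l p q = fv al p * C (al l q) - fv al q * C (al l p) := by
  have e : fv al p * C (al l q) - fv al q * C (al l p) =
      ∑ i, (∏ j ∈ Finset.univ.erase i, ll al j) * C (al i p * al l q - al i q * al l p) := by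
    rw [CV_fv, CV_fv, Finset.sum_mul, Finset.sum_mul, ← Finset.sum_sub_distrib]
    refine Finset.sum_congr rfl fun i _ => ?_
    rw [map_sub, map_mul, map_mul]
    ring
  rw [e, ← Finset.add_sum_erase Finset.univ _ (Finset.mem_univ l)]
  rw [show al l p * al l q - al l q * al l p = 0 by ring, map_zero, mul_zero, zero_add]
  unfold Cv
  rw [Finset.mul_sum]
  refine Finset.sum_congr rfl fun i hi => ?_
  rw [← mul_assoc, CV_prod_l al i l (Finset.ne_of_mem_erase hi)]

end CVaux

/-- CV: facts on the 2-vectors `C_l`. -/
theorem T_CV : P_CV.{u} := by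
  intro k _ m al hne
  refine ⟨CV_one al, ?_, ?_, ?_, ?_⟩
  · intro l p q r
    apply mul_left_cancel₀ (hne l)
    have h1 := CV_one al l q r
    have h2 := CV_one al l r p
    have h3 := CV_one al l p q
    linear_combination fv al p * h1 + fv al q * h2 + fv al r * h3
  · intro p q
    have e : ∀ l : Fin m, Cv al l p q =
        (∑ i ∈ Finset.univ.erase l, (∏ j ∈ (Finset.univ.erase l).erase i, ll al j) *
          C (al i p * al l q)) -
        ∑ i ∈ Finset.univ.erase l, (∏ j ∈ (Finset.univ.erase l).erase i, ll al j) *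
          C (al i q * al l p) := by
      intro l
      rw [← Finset.sum_sub_distrib]
      refine Finset.sum_congr rfl fun i _ => ?_
      rw [map_sub, mul_sub]
    simp_rw [e]
    rw [Finset.sum_sub_distrib, sub_eq_zero]
    rw [Finset.sum_comm' (t' := Finset.univ) (s' := fun i => Finset.univ.erase i)]
    · refine Finset.sum_congr rfl fun i _ => Finset.sum_congr rfl fun l _ => ?_
      rw [Finset.erase_right_comm, mul_comm (al i p)]
    · intro x y
      simp [ne_comm]
  · intro l q
    have e : ∑ p, X p * Cv al l p q = ∑ i ∈ Finset.univ.erase l,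
        ((∏ j ∈ Finset.univ.erase l, ll al j) * C (al l q) -
          (∏ j ∈ Finset.univ.erase i, ll al j) * C (al i q)) := by
      unfold Cv
      simp_rw [Finset.mul_sum]
      rw [Finset.sum_comm]
      refine Finset.sum_congr rfl fun i hi => ?_
      have hil := Finset.ne_of_mem_erase hi
      rw [← CV_prod_i al i l hil, ← CV_prod_l al i l hil]
      have e1 : ll al i = ∑ p, C (al i p) * X p := rfl
      have e2 : ll al l = ∑ p, C (al l p) * X p := rfl
      generalize (∏ j ∈ (Finset.univ.erase l).erase i, ll al j) = Y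
      rw [e1, e2]
      simp only [Finset.sum_mul, ← Finset.sum_sub_distrib]
      refine Finset.sum_congr rfl fun p _ => ?_
      rw [map_sub, map_mul, map_mul]
      ring
    rw [e, Finset.sum_sub_distrib, Finset.sum_const, Finset.card_erase_of_mem (Finset.mem_univ l),
      Finset.card_univ, Fintype.card_fin, CV_fv,
      ← Finset.add_sum_erase Finset.univ _ (Finset.mem_univ l), nsmul_eq_mul]
    have hm : 1 ≤ m := by
      have := l.pos
      omega
    rw [Nat.cast_sub hm]
    push_cast
    ring
  · intro l p q
    unfold Cv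
    rw [← Finset.sum_neg_distrib]
    refine Finset.sum_congr rfl fun i _ => ?_
    rw [← mul_neg, ← map_neg]
    congr 2
    ring

end Pool.Agent.T2H84.SJ
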