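import Pool.Agent.T2H84.SJ.Stm

set_option autoImplicit false

namespace Pool.Agent.T2H84.SJ

open MvPolynomial Matrix TensorProduct

universe u

theorem T_D2 : P_D2.{u} := by
  intro A _ m l i T
  induction T using Finset.induction_on with
  | empty =>
    intro _ _ _ w _
    rw [Finset.prod_empty]
    have h1 : (1 : A) ∈ Ideal.span {l i, 1} := Ideal.subset_span (by simp)
    rw [(Ideal.eq_top_iff_one _).2 h1]
    trivial
  | insert j T hj ih =>
    intro hi hp hn w hw
    have hi' : i ∉ T := fun h => hi (Finset.mem_insert_of_mem h)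
    have h1 := ih hi' (fun t ht => hp t (Finset.mem_insert_of_mem ht))
      (fun t ht s hs => hn t (Finset.mem_insert_of_mem ht) s (Finset.mem_insert_of_mem hs)) w
      (fun t ht => hw t (Finset.mem_insert_of_mem ht))
    obtain ⟨a, b, hab⟩ := Ideal.mem_span_pair.1 h1
    have hjm : j ∈ insert j T := Finset.mem_insert_self j T
    have hP := hp j hjm
    have h2 : b * ∏ t ∈ T, l t ∈ Ideal.span {l i, l j} := by
      have h3 := hw j hjm
      have h4 : a * l i ∈ Ideal.span {l i, l j} :=
        Ideal.mul_mem_left _ _ (Ideal.subset_span (by simp))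
      have h5 : b * ∏ t ∈ T, l t = w - a * l i := by rw [← hab]; ring
      rw [h5]
      exact Ideal.sub_mem _ h3 h4
    have h6 : ∏ t ∈ T, l t ∉ Ideal.span {l i, l j} := by
      intro h
      rw [hP.prod_mem_iff] at h
      obtain ⟨t, ht, h⟩ := h
      refine hn j hjm t (Finset.mem_insert_of_mem ht) ?_ h
      rintro rfl
      exact hj ht
    have h7 : b ∈ Ideal.span {l i, l j} := (hP.mem_or_mem h2).resolve_right h6
    obtain ⟨c, d, hcd⟩ := Ideal.mem_span_pair.1 h7
    rw [Finset.prod_insert hj, ← hab, ← hcd]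
    refine Ideal.mem_span_pair.2 ⟨a + c * ∏ t ∈ T, l t, d, by ring⟩

end Pool.Agent.T2H84.SJ
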