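import Pool.Agent.T2H84.SJ.Stm

/-! Package DEC of project SJ. -/

set_option autoImplicit false

namespace Pool.Agent.T2H84.SJ

open MvPolynomial Matrix TensorProduct

universe u

lemma dec_prod_notMem {A : Type u} [CommRing A] {m : ℕ} {P : Ideal A} (hP : P.IsPrime)
    (T : Finset (Fin m)) (l : Fin m → A) (h : ∀ t ∈ T, l t ∉ P) : ∏ t ∈ T, l t ∉ P := by
  intro hc
  obtain ⟨t, ht, htP⟩ := (Ideal.IsPrime.prod_mem_iff).1 hc
  exact h t ht htP

lemma dec_dvd {A : Type u} [CommRing A] {m : ℕ} {S : Finset (Fin m)} {l : Fin m → A}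
    (hG : GP S l) (v : A) (hv' : ∀ i ∈ S, v ∈ Ideal.span {l i}) :
    ∀ T : Finset (Fin m), T ⊆ S → (∏ t ∈ T, l t) ∣ v := by
  intro T
  induction T using Finset.induction_on with
  | empty => intro _; simp
  | insert i T hi ih =>
    intro hT
    obtain ⟨x, hx⟩ := ih fun t ht => hT (Finset.mem_insert_of_mem ht)
    have hiS : i ∈ S := hT (Finset.mem_insert_self i T)
    have h1 := hv' i hiS
    have hP := hG.p1 i hiS
    rw [hx] at h1
    rcases hP.mem_or_mem h1 with h2 | h2
    · exfalso
      refine dec_prod_notMem hP T l (fun t ht => ?_) h2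
      exact hG.n1 i hiS t (hT (Finset.mem_insert_of_mem ht)) (fun e => hi (e ▸ ht))
    · obtain ⟨y, hy⟩ := Ideal.mem_span_singleton'.1 h2
      refine ⟨y, ?_⟩
      rw [hx, ← hy, Finset.prod_insert hi]
      ring

theorem T_DEC : P_DEC.{u} := by
  intro hD2 k A _ _ _ _ d m S a l hG ha hij w hw
  classical
  -- notation
  obtain ⟨g, hg⟩ : ∃ g : Fin m → A, g = fun i => ∏ j ∈ S.erase i, l j := ⟨_, rfl⟩
  obtain ⟨al, hal⟩ : ∃ al : Fin m → Fin d → A, al = fun i p => algebraMap k A (a i p) := ⟨_, rfl⟩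
  have hgd : ∀ i ∈ S, ∀ j, j ≠ i → g j ∈ Ideal.span {l i} := by
    intro i hi j hji
    rw [Ideal.mem_span_singleton, hg]
    exact Finset.dvd_prod_of_mem l (Finset.mem_erase.2 ⟨fun e => hji e.symm, hi⟩)
  have hh : ∀ p, hv S a l p = ∑ i ∈ S, g i * al i p := by
    intro p
    rw [hg, hal]
    rfl
  -- Step 1
  have s1 : ∀ i ∈ S, ∀ p q, al i p * w q - al i q * w p ∈ Ideal.span {l i} := by
    intro i hi p q
    have hP := hG.p1 i hi
    have h1 : ∀ r, hv S a l r - g i * al i r ∈ Ideal.span {l i} := by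
      intro r
      rw [hh, ← Finset.add_sum_erase S _ hi, add_sub_cancel_left]
      refine Ideal.sum_mem _ fun j hj => ?_
      exact Ideal.mul_mem_right _ _ (hgd i hi j (Finset.ne_of_mem_erase hj))
    have h2 : g i * (al i p * w q - al i q * w p) ∈ Ideal.span {l i} := by
      have h3 := Ideal.sub_mem _ (hw i hi p q)
        (Ideal.sub_mem _ (Ideal.mul_mem_right (w q) _ (h1 p)) (Ideal.mul_mem_right (w p) _ (h1 q)))
      convert h3 using 1
      ring
    rcases hP.mem_or_mem h2 with h3 | h3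
    · exfalso
      rw [hg] at h3
      refine dec_prod_notMem hP (S.erase i) l (fun t ht => ?_) h3
      exact hG.n1 i hi t (Finset.mem_of_mem_erase ht) (Finset.ne_of_mem_erase ht).symm
    · exact h3
  -- Step 2
  have s2 : ∀ i, ∃ t : A, i ∈ S → ∀ q, w q - t * al i q ∈ Ideal.span {l i} := by
    intro i
    by_cases hi : i ∈ S
    · have h1 : ∃ p, a i p ≠ 0 := by
        by_contra hc
        push Not at hc
        exact ha i hi (funext hc)
      obtain ⟨p, hp⟩ := h1
      refine ⟨algebraMap k A (a i p)⁻¹ * w p, fun _ q => ?_⟩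
      have h2 := Ideal.mul_mem_left _ (algebraMap k A (a i p)⁻¹) (s1 i hi p q)
      have h3 : algebraMap k A (a i p)⁻¹ * al i p = 1 := by
        rw [hal]
        beta_reduce
        rw [← map_mul, inv_mul_cancel₀ hp, map_one]
      convert h2 using 1
      linear_combination (-w q) * h3
    · exact ⟨0, fun h => absurd h hi⟩
  choose t ht using s2
  -- Step 3
  have s3 : ∀ i ∈ S, ∀ j ∈ S, i ≠ j → t i ∈ Ideal.span {l i, l j} := by
    intro i hi j hj hne
    obtain ⟨p, q, hpq⟩ := hij i hi j hj hne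
    have e1 : ∀ r, w r - t i * al i r ∈ Ideal.span {l i, l j} := fun r =>
      Ideal.span_mono (by simp) (ht i hi r)
    have e2 : ∀ r, w r - t j * al j r ∈ Ideal.span {l i, l j} := fun r =>
      Ideal.span_mono (by simp) (ht j hj r)
    have e3 : ∀ r, t j * al j r - t i * al i r ∈ Ideal.span {l i, l j} := fun r => by
      have := Ideal.sub_mem _ (e1 r) (e2 r)
      convert this using 1
      ring
    have e4 := Ideal.sub_mem _ (Ideal.mul_mem_right (al j q) _ (e3 p))
      (Ideal.mul_mem_right (al j p) _ (e3 q))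
    have e5 : t i * (al i p * al j q - al i q * al j p) ∈ Ideal.span {l i, l j} := by
      have := Ideal.neg_mem_iff _ |>.2 e4
      convert this using 1
      ring
    have e6 := Ideal.mul_mem_left _ (algebraMap k A (a i p * a j q - a i q * a j p)⁻¹) e5
    have e7 : algebraMap k A (a i p * a j q - a i q * a j p)⁻¹ *
        (al i p * al j q - al i q * al j p) = 1 := by
      rw [hal]
      beta_reduce
      rw [← map_mul, ← map_mul, ← map_sub, ← map_mul, inv_mul_cancel₀ hpq, map_one]
    convert e6 using 1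
    linear_combination (-t i) * e7
  -- Step 4
  have s4 : ∀ i, ∃ c : A, i ∈ S → t i - c * g i ∈ Ideal.span {l i} := by
    intro i
    by_cases hi : i ∈ S
    · have h1 := hD2 A m l i (S.erase i) (Finset.notMem_erase i S)
        (fun r hr => hG.p2 i hi r (Finset.mem_of_mem_erase hr) (Finset.ne_of_mem_erase hr).symm)
        (fun r hr j hj hjr => hG.n2 i hi r (Finset.mem_of_mem_erase hr) j
          (Finset.mem_of_mem_erase hj) (Finset.ne_of_mem_erase hr).symm
          (Finset.ne_of_mem_erase hj) hjr)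
        (t i) (fun r hr => s3 i hi r (Finset.mem_of_mem_erase hr) (Finset.ne_of_mem_erase hr).symm)
      obtain ⟨x, y, hxy⟩ := Ideal.mem_span_pair.1 h1
      refine ⟨y, fun _ => Ideal.mem_span_singleton'.2 ⟨x, ?_⟩⟩
      rw [hg]
      beta_reduce
      linear_combination hxy
    · exact ⟨0, fun h => absurd h hi⟩
  choose c hc using s4
  -- Step 5
  have s5 : ∀ p, ∀ i ∈ S, w p - ∑ j ∈ S, c j * g j * al j p ∈ Ideal.span {l i} := by
    intro p i hi
    rw [← Finset.add_sum_erase S _ hi]
    have h1 := ht i hi p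
    have h2 := Ideal.mul_mem_right (al i p) _ (hc i hi)
    have h3 : ∑ j ∈ S.erase i, c j * g j * al j p ∈ Ideal.span {l i} := by
      refine Ideal.sum_mem _ fun j hj => ?_
      exact Ideal.mul_mem_right _ _ (Ideal.mul_mem_left _ _
        (hgd i hi j (Finset.ne_of_mem_erase hj)))
    have h4 := Ideal.sub_mem _ (Ideal.add_mem _ h1 h2) h3
    convert h4 using 1
    ring
  have s6 : ∀ p, ∃ x, w p - ∑ j ∈ S, c j * g j * al j p = (∏ i ∈ S, l i) * x := fun p =>
    dec_dvd hG _ (s5 p) S (Finset.Subset.refl _)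
  choose w' hw' using s6
  refine ⟨c, w', fun p => ?_⟩
  have h1 := hw' p
  rw [hg, hal] at h1
  linear_combination h1

end Pool.Agent.T2H84.SJ
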