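import Pool.Agent.T2H84.SJ.Stm

set_option autoImplicit false

namespace Pool.Agent.T2H84.SJ

open MvPolynomial Matrix TensorProduct

universe u

theorem EUL_pderiv_lin {k : Type u} [Field k] (b : Fin 4 → k) (j : Fin 4) :
    pderiv j (lin b) = C (b j) := by
  unfold lin
  rw [map_sum]
  rw [Finset.sum_eq_single j]
  · rw [pderiv_C_mul, pderiv_X_self, mul_one]
  · intro i _ hij
    rw [pderiv_C_mul, pderiv_X_of_ne hij, mul_zero]
  · intro h
    exact absurd (Finset.mem_univ j) h

theorem EUL_prod {k : Type u} [Field k] {m : ℕ} (al : Fin m → Fin 4 → k) (j : Fin 4) (S : Finset (Fin m)) :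
    pderiv j (∏ i ∈ S, lin (al i)) = ∑ i ∈ S, (∏ t ∈ S.erase i, lin (al t)) * C (al i j) := by
  induction S using Finset.induction_on with
  | empty => simp
  | insert a S ha ih =>
    rw [Finset.prod_insert ha, Derivation.leibniz, ih, Finset.sum_insert ha, Finset.erase_insert ha,
      EUL_pderiv_lin, smul_eq_mul, smul_eq_mul, Finset.mul_sum]
    have h : ∀ i ∈ S, (∏ t ∈ (insert a S).erase i, lin (al t)) * C (al i j) =
        lin (al a) * ((∏ t ∈ S.erase i, lin (al t)) * C (al i j)) := by
      intro i hi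
      have hne : a ≠ i := by
        rintro rfl
        exact ha hi
      rw [Finset.erase_insert_of_ne hne, Finset.prod_insert (by
        intro h; exact ha (Finset.mem_of_mem_erase h))]
      ring
    rw [Finset.sum_congr rfl h]
    ring

theorem T_EUL : P_EUL.{u} := by
  refine ⟨?_, ?_⟩
  · intro k A _ _ _ d m S a y l hl
    unfold hv
    have h1 : ∀ p : Fin d, y p * ∑ i ∈ S, (∏ j ∈ S.erase i, l j) * algebraMap k A (a i p) =
        ∑ i ∈ S, (∏ j ∈ S.erase i, l j) * (algebraMap k A (a i p) * y p) := by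
      intro p
      rw [Finset.mul_sum]
      refine Finset.sum_congr rfl fun i _ => ?_
      ring
    rw [Finset.sum_congr rfl fun p _ => h1 p, Finset.sum_comm]
    have h2 : ∀ i ∈ S, ∑ p, (∏ j ∈ S.erase i, l j) * (algebraMap k A (a i p) * y p) = ∏ j ∈ S, l j := by
      intro i hi
      rw [← Finset.mul_sum, ← hl i hi, Finset.prod_erase_mul _ _ hi]
    rw [Finset.sum_congr rfl h2, Finset.sum_const, nsmul_eq_mul]
  · intro k _ m al j
    rw [EUL_prod]
    rfl

end Pool.Agent.T2H84.SJ
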