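import Pool.Agent.T2H84.SJ.Stm

set_option autoImplicit false

namespace Pool.Agent.T2H84.SJ

open MvPolynomial Matrix TensorProduct

universe u

section F1aux

variable {k : Type u} [Field k] {m : ℕ} (al : Fin m → Fin 4 → k)

lemma F1_fv (p : Fin 4) : fv al p =
    ∑ i, (∏ j ∈ Finset.univ.erase i, ll al j) * C (al i p) := by
  unfold fv hv
  simp only [MvPolynomial.algebraMap_eq]

lemma F1_prod_l (i l : Fin m) (h : i ≠ l) :
    ll al l * (∏ j ∈ (Finset.univ.erase l).erase i, ll al j) = ∏ j ∈ Finset.univ.erase i, ll al j := by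
  rw [Finset.erase_right_comm, Finset.mul_prod_erase]
  exact Finset.mem_erase.mpr ⟨h.symm, Finset.mem_univ l⟩

lemma F1_prod_f (i : Fin m) : ll al i * (∏ j ∈ Finset.univ.erase i, ll al j) = ∏ j, ll al j :=
  Finset.mul_prod_erase _ _ (Finset.mem_univ i)

/-- two independent vectors have a nonzero minor -/
lemma F1_minor (a b : Fin 4 → k) (h : LinearIndependent k ![a, b]) :
    ∃ p q, a p * b q - a q * b p ≠ 0 := by
  by_contra hcon
  push Not at hcon
  rw [LinearIndependent.pair_iff] at h
  have ha : a ≠ 0 := by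
    intro h0
    have := (h 1 0 (by simp [h0])).1
    exact one_ne_zero this
  obtain ⟨p, hp⟩ := Function.ne_iff.mp ha
  have h1 := (h (b p) (- a p) (by
    funext q
    have := hcon p q
    simp only [Pi.add_apply, Pi.smul_apply, smul_eq_mul, Pi.zero_apply]
    linear_combination (-1 : k) * this)).2
  exact hp (by simpa using h1)

/-- the vectors `α_l` span: every vector of polynomials is a combination of them -/
lemma F1_span (h : Submodule.span k (Set.range al) = ⊤) (w : Fin 4 → MvPolynomial (Fin 4) k) :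
    ∃ v : Fin m → MvPolynomial (Fin 4) k, ∀ p, w p = ∑ l, v l * C (al l p) := by
  have h1 : ∀ r : Fin 4, ∃ b : Fin m → k, ∑ l, b l • al l = Pi.single r 1 := by
    intro r
    rw [← Submodule.mem_span_range_iff_exists_fun, h]
    trivial
  choose b hb using h1
  refine ⟨fun l => ∑ r, w r * C (b r l), fun p => ?_⟩
  have e : ∑ l, (∑ r, w r * C (b r l)) * C (al l p) = ∑ r, w r * C (∑ l, b r l * al l p) := by
    simp_rw [Finset.sum_mul, map_sum, Finset.mul_sum]
    rw [Finset.sum_comm]
    refine Finset.sum_congr rfl fun r _ => Finset.sum_congr rfl fun l _ => ?_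
    rw [map_mul, mul_assoc]
  rw [e]
  have e2 : ∀ r : Fin 4, ∑ l, b r l * al l p = (Pi.single r 1 : Fin 4 → k) p := by
    intro r
    rw [← hb r]
    simp [Finset.sum_apply]
  simp_rw [e2]
  rw [Finset.sum_eq_single p]
  · simp
  · intro r _ hr
    rw [Pi.single_eq_of_ne (Ne.symm hr), map_zero, mul_zero]
  · intro hp
    exact absurd (Finset.mem_univ p) hp

end F1aux

/-- F1: cocycles are combinations of the `C_l`. -/
theorem T_F1 : P_F1.{u} := by
  intro hDEC hEUL k _ m al hA hG D hD0 hDa hcyc
  have hEul := hEUL.1 k (MvPolynomial (Fin 4) k) 4 m Finset.univ al (fun p => X p) (ll al) (by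
    intro i _
    simp only [MvPolynomial.algebraMap_eq]
    rfl)
  rw [Finset.card_univ, Fintype.card_fin] at hEul
  set f : MvPolynomial (Fin 4) k := ∏ i, ll al i with hf
  have hf0 : f ≠ 0 := Finset.prod_ne_zero_iff.mpr fun i hi => hG.ne i hi
  -- contraction with `x`
  set w : Fin 4 → MvPolynomial (Fin 4) k := fun q => ∑ p, X p * D p q with hw
  have hmf : ∀ p q, (m : MvPolynomial (Fin 4) k) * f * D p q = fv al p * w q - fv al q * w p := by
    intro q r
    have h1 : ∑ p, X p * (fv al p * D q r + fv al q * D r p + fv al r * D p q) = 0 := by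
      refine Finset.sum_eq_zero fun p _ => ?_
      rw [hcyc, mul_zero]
    have h2 : ∑ p, X p * (fv al p * D q r + fv al q * D r p + fv al r * D p q) =
        (∑ p, X p * fv al p) * D q r - fv al q * w r + fv al r * w q := by
      simp only [hw, Finset.sum_mul, Finset.mul_sum, ← Finset.sum_sub_distrib,
        ← Finset.sum_add_distrib]
      refine Finset.sum_congr rfl fun p _ => ?_
      rw [hDa p r]
      ring
    have h3 : (∑ p, X p * fv al p) = (m : MvPolynomial (Fin 4) k) * f := hEul
    rw [h2, h3] at h1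
    linear_combination h1
  -- DEC
  obtain ⟨c, w', hcw⟩ := hDEC k (MvPolynomial (Fin 4) k) 4 m Finset.univ al (ll al) hG
    (fun i _ => hA.i1 i) (fun i _ j _ hij => F1_minor _ _ (hA.i2 i j hij)) w (by
      intro i _ p q
      have h4 : hv Finset.univ al (ll al) p * w q - hv Finset.univ al (ll al) q * w p =
          (m : MvPolynomial (Fin 4) k) * f * D p q := (hmf p q).symm
      rw [h4, Ideal.mem_span_singleton]
      refine Dvd.dvd.mul_right (Dvd.dvd.mul_left ?_ _) _
      exact Finset.dvd_prod_of_mem _ (Finset.mem_univ i))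
  obtain ⟨v, hv'⟩ := F1_span al hA.sp w'
  have hcw2 : ∀ p, w p = ∑ l, (c l + ll al l * v l) * (∏ j ∈ Finset.univ.erase l, ll al j) *
      C (al l p) := by
    intro p
    rw [hcw p, hv' p, Finset.mul_sum, ← Finset.sum_add_distrib]
    refine Finset.sum_congr rfl fun l _ => ?_
    rw [← F1_prod_f al l, MvPolynomial.algebraMap_eq]
    ring
  obtain ⟨c', hcw3⟩ : ∃ c' : Fin m → MvPolynomial (Fin 4) k, ∀ p, w p =
      ∑ l, c' l * (∏ j ∈ Finset.univ.erase l, ll al j) * C (al l p) := ⟨_, hcw2⟩
  refine ⟨c', fun p q => ?_⟩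
  apply mul_left_cancel₀ hf0
  have e1 : f * ((m : MvPolynomial (Fin 4) k) * D p q) = fv al p * w q - fv al q * w p := by
    rw [← hmf p q]; ring
  rw [e1, F1_fv, F1_fv]
  simp only [hcw3]
  rw [Finset.mul_sum, Finset.mul_sum, ← Finset.sum_sub_distrib, Finset.mul_sum]
  refine Finset.sum_congr rfl fun l _ => ?_
  have e2 : (∑ i, (∏ j ∈ Finset.univ.erase i, ll al j) * C (al i p)) * C (al l q) -
      (∑ i, (∏ j ∈ Finset.univ.erase i, ll al j) * C (al i q)) * C (al l p) =
      ll al l * Cv al l p q := by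
    have e3 : (∑ i, (∏ j ∈ Finset.univ.erase i, ll al j) * C (al i p)) * C (al l q) -
        (∑ i, (∏ j ∈ Finset.univ.erase i, ll al j) * C (al i q)) * C (al l p) =
        ∑ i, (∏ j ∈ Finset.univ.erase i, ll al j) * C (al i p * al l q - al i q * al l p) := by
      rw [Finset.sum_mul, Finset.sum_mul, ← Finset.sum_sub_distrib]
      refine Finset.sum_congr rfl fun i _ => ?_
      rw [map_sub, map_mul, map_mul]
      ring
    rw [e3, ← Finset.add_sum_erase Finset.univ _ (Finset.mem_univ l)]
    rw [show al l p * al l q - al l q * al l p = 0 by ring, map_zero, mul_zero, zero_add]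
    unfold Cv
    rw [Finset.mul_sum]
    refine Finset.sum_congr rfl fun i hi => ?_
    rw [← mul_assoc, F1_prod_l al i l (Finset.ne_of_mem_erase hi)]
  have e4 := F1_prod_f al l
  rw [← hf] at e4
  rw [← e4]
  linear_combination (c' l * (∏ j ∈ Finset.univ.erase l, ll al j)) * e2

end Pool.Agent.T2H84.SJ
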