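import Pool.Agent.T2H84.SJ.Stm

set_option autoImplicit false

namespace Pool.Agent.T2H84.SJ

open MvPolynomial Matrix TensorProduct

universe u

section FIN

variable {A : Type u} [CommRing A] {n : ℕ} (f : Fin n → A)

/-- the generators as elements of the ideal -/
def FIN_fe (j : Fin n) : Ideal.span (Set.range f) := ⟨f j, Ideal.subset_span ⟨j, rfl⟩⟩

theorem FIN_exp (x : Ideal.span (Set.range f)) : ∃ c : Fin n → A, x = ∑ j, c j • FIN_fe f j := by
  obtain ⟨x, hx⟩ := x
  obtain ⟨c, hc⟩ := (Submodule.mem_span_range_iff_exists_fun A).1 hx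
  refine ⟨c, ?_⟩
  apply Subtype.ext
  show x = _
  rw [← hc]
  simp [FIN_fe]

/-- the classes of the products of generators -/
noncomputable def FIN_E (j l : Fin n) :
    ((Ideal.span (Set.range f) : Ideal A) ⊗[A] (Ideal.span (Set.range f) : Ideal A)) ⧸
      symRel (Ideal.span (Set.range f)) :=
  (symRel (Ideal.span (Set.range f))).mkQ (FIN_fe f j ⊗ₜ[A] FIN_fe f l)

theorem FIN_Esymm (j l : Fin n) : FIN_E f j l = FIN_E f l j := by
  unfold FIN_E
  rw [← sub_eq_zero, ← map_sub, Submodule.mkQ_apply, Submodule.Quotient.mk_eq_zero]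
  exact Submodule.subset_span ⟨_, _, rfl⟩

theorem FIN_all (q : ((Ideal.span (Set.range f) : Ideal A) ⊗[A] (Ideal.span (Set.range f) : Ideal A)) ⧸
      symRel (Ideal.span (Set.range f))) : ∃ a : Fin n → Fin n → A, q = ∑ j, ∑ l, a j l • FIN_E f j l := by
  obtain ⟨t, rfl⟩ := Submodule.mkQ_surjective _ q
  induction t using TensorProduct.induction_on with
  | zero => exact ⟨fun _ _ => 0, by simp⟩
  | add x y hx hy =>
    obtain ⟨a, ha⟩ := hx
    obtain ⟨b, hb⟩ := hy
    refine ⟨fun j l => a j l + b j l, ?_⟩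
    rw [map_add, ha, hb]
    simp only [add_smul, Finset.sum_add_distrib]
  | tmul x y =>
    obtain ⟨a, ha⟩ := FIN_exp f x
    obtain ⟨b, hb⟩ := FIN_exp f y
    refine ⟨fun j l => a j * b l, ?_⟩
    rw [ha, hb, TensorProduct.sum_tmul, map_sum]
    refine Finset.sum_congr rfl fun j _ => ?_
    rw [TensorProduct.tmul_sum, map_sum]
    refine Finset.sum_congr rfl fun l _ => ?_
    rw [TensorProduct.smul_tmul_smul, map_smul]
    rfl

theorem FIN_toSq (j l : Fin n) : toSq (Ideal.span (Set.range f)) (FIN_E f j l) = f j * f l := by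
  unfold FIN_E toSq
  rw [Submodule.mkQ_apply, Submodule.liftQ_apply]
  simp [mulMap, FIN_fe]

end FIN

theorem T_FIN : P_FIN.{u} := by
  intro A _ n f h2 hS
  obtain ⟨w, hw⟩ := h2.exists_left_inv
  rw [eq_bot_iff]
  intro q hq
  rw [Submodule.mem_bot]
  obtain ⟨a, ha⟩ := FIN_all f q
  let b : Matrix (Fin n) (Fin n) A := fun j l => w * (a j l + a l j)
  have hb : ∀ i j, b j i = b i j := fun i j => by
    show w * (a j i + a i j) = w * (a i j + a j i)
    ring
  have hqb : q = ∑ j, ∑ l, b j l • FIN_E f j l := by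
    have h1 : ∑ j, ∑ l, b j l • FIN_E f j l = w • (q + q) := by
      have e1 : ∑ j, ∑ l, b j l • FIN_E f j l =
          w • (∑ j, ∑ l, a j l • FIN_E f j l + ∑ j, ∑ l, a l j • FIN_E f j l) := by
        rw [smul_add, Finset.smul_sum, Finset.smul_sum, ← Finset.sum_add_distrib]
        refine Finset.sum_congr rfl fun j _ => ?_
        rw [Finset.smul_sum, Finset.smul_sum, ← Finset.sum_add_distrib]
        refine Finset.sum_congr rfl fun l _ => ?_
        show (w * (a j l + a l j)) • FIN_E f j l = _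
        rw [mul_add, add_smul, mul_smul, mul_smul]
      have e2 : ∑ j, ∑ l, a l j • FIN_E f j l = q := by
        rw [Finset.sum_comm, ha]
        refine Finset.sum_congr rfl fun j _ => Finset.sum_congr rfl fun l _ => ?_
        rw [FIN_Esymm f l j]
      rw [e1, e2, ← ha]
    rw [h1, ← two_smul A q, smul_smul, hw, one_smul]
  have hz : ∑ i, f i * (b *ᵥ f) i = 0 := by
    have h1 : toSq (Ideal.span (Set.range f)) q = 0 := hq
    rw [hqb, map_sum] at h1
    rw [← h1]
    refine Finset.sum_congr rfl fun i _ => ?_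
    rw [map_sum]
    show f i * (∑ j, b i j * f j) = _
    rw [Finset.mul_sum]
    refine Finset.sum_congr rfl fun j _ => ?_
    rw [map_smul, FIN_toSq, smul_eq_mul]
    ring
  obtain ⟨B, _, hB2, hB3⟩ := hS b hb hz
  have hqB : q = ∑ j, ∑ l, B j l • FIN_E f j l := by
    rw [hqb]
    refine Finset.sum_congr rfl fun j _ => ?_
    have key : ∀ c : Fin n → A, ∑ l, c l • FIN_E f j l =
        (symRel (Ideal.span (Set.range f))).mkQ (FIN_fe f j ⊗ₜ[A] ∑ l, c l • FIN_fe f l) := by
      intro c
      rw [TensorProduct.tmul_sum, map_sum]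
      refine Finset.sum_congr rfl fun l _ => ?_
      rw [TensorProduct.tmul_smul, map_smul]
      rfl
    rw [key, key]
    congr 2
    apply Subtype.ext
    have h1 : (B *ᵥ f) j = (b *ᵥ f) j := by rw [hB3]
    have h2 : ∑ l, B j l * f l = ∑ l, b j l * f l := h1
    simpa [FIN_fe] using h2.symm
  have hneg : q = -q := by
    conv_rhs => rw [hqB, Finset.sum_comm]
    conv_lhs => rw [hqB]
    rw [← Finset.sum_neg_distrib]
    refine Finset.sum_congr rfl fun j _ => ?_
    rw [← Finset.sum_neg_distrib]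
    refine Finset.sum_congr rfl fun l _ => ?_
    rw [hB2 j l, FIN_Esymm f l j, neg_smul, neg_neg]
  have h3 : (2 : A) • q = 0 := by
    rw [two_smul]
    nth_rewrite 1 [hneg]
    exact neg_add_cancel q
  rw [← one_smul A q, ← hw, mul_smul, h3, smul_zero]

end Pool.Agent.T2H84.SJ
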