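import Pool.Agent.T2H84.SJ.Stm

set_option autoImplicit false

namespace Pool.Agent.T2H84.SJ

open MvPolynomial Matrix TensorProduct

universe u

theorem GEN_avoid {k : Type u} [Field k] [CharZero k] {ι : Type} [Fintype ι] (p : ι → Submodule k (Fin 4 → k))
    (hp : ∀ i, p i ≠ ⊤) : ∃ x : Fin 4 → k, ∀ i, x ∉ p i := by
  by_contra hcon
  push Not at hcon
  have : Infinite k := CharZero.infinite k
  have hcov : ⋃ i, (p i : Set (Fin 4 → k)) = Set.univ := by
    ext x
    simp only [Set.mem_iUnion, Set.mem_univ, iff_true]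
    exact hcon x
  obtain ⟨i, hi⟩ := Subspace.exists_eq_top_of_iUnion_eq_univ hcov
  exact hp i hi

theorem GEN_top {k : Type u} [Field k] {n : ℕ} (hn : n < 4) (v : Fin n → Fin 4 → k) :
    Submodule.span k (Set.range v) ≠ ⊤ := by
  intro h
  have h1 := finrank_range_le_card (R := k) v
  unfold Set.finrank at h1
  rw [h, finrank_top, Module.finrank_fin_fun, Fintype.card_fin] at h1
  omega

theorem T_GEN : P_GEN.{u} := by
  intro k _ _ m al hA
  -- there is a form
  have hm : 0 < m := by
    rcases Nat.eq_zero_or_pos m with h | h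
    · exfalso
      subst h
      have := hA.sp
      rw [Set.range_eq_empty, Submodule.span_empty] at this
      exact bot_ne_top this
    · exact h
  obtain ⟨mu, hmu⟩ := GEN_avoid (fun z : Fin m × Fin m => Submodule.span k (Set.range ![al z.1, al z.2]))
    (fun z => GEN_top (by norm_num) _)
  obtain ⟨la, hla⟩ := GEN_avoid (fun z : Fin m × Fin m => Submodule.span k (Set.range ![mu, al z.1, al z.2]))
    (fun z => GEN_top (by norm_num) _)
  have key : ∀ i j, i ≠ j → LinearIndependent k ![la, mu, al i, al j] := by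
    intro i j hij
    exact linearIndependent_finCons.2 ⟨linearIndependent_finCons.2 ⟨hA.i2 i j hij, hmu (i, j)⟩, hla (i, j)⟩
  have key3 : ∀ i, LinearIndependent k ![la, mu, al i] := by
    intro i
    have h1 : LinearIndependent k ![al i] := by
      rw [linearIndependent_unique_iff]
      exact hA.i1 i
    refine linearIndependent_finCons.2 ⟨linearIndependent_finCons.2 ⟨h1, ?_⟩, ?_⟩
    · intro h
      refine hmu (i, i) (Submodule.span_mono ?_ h)
      rintro x ⟨t, rfl⟩
      exact ⟨0, by fin_cases t; rfl⟩
    · intro h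
      refine hla (i, i) (Submodule.span_mono ?_ h)
      rintro x ⟨t, rfl⟩
      fin_cases t
      · exact ⟨0, rfl⟩
      · exact ⟨1, rfl⟩
  refine ⟨la, mu, ?_, key3, key⟩
  have h3 := key3 ⟨0, hm⟩
  have h4 := h3.comp (![0, 1] : Fin 2 → Fin 3) (by
    intro a b hab
    fin_cases a <;> fin_cases b <;> simp_all)
  convert h4 using 1
  funext t
  fin_cases t <;> rfl

end Pool.Agent.T2H84.SJ
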