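import Pool.Agent.T2H84.SJ.Stm

set_option autoImplicit false

namespace Pool.Agent.T2H84.SJ

open MvPolynomial Matrix TensorProduct

universe u

section GPO

variable {k : Type u} [Field k]

theorem GPO_lin_add (b c : Fin 4 → k) : lin (b + c) = lin b + lin c := by
  unfold lin
  rw [← Finset.sum_add_distrib]
  refine Finset.sum_congr rfl fun j _ => ?_
  rw [Pi.add_apply, C_add, add_mul]

theorem GPO_lin_smul (c : k) (b : Fin 4 → k) : lin (c • b) = C c * lin b := by
  unfold lin
  rw [Finset.mul_sum]
  refine Finset.sum_congr rfl fun j _ => ?_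
  rw [Pi.smul_apply, smul_eq_mul, C_mul, mul_assoc]

theorem GPO_lin_zero : lin (0 : Fin 4 → k) = 0 := by
  simp [lin]

theorem GPO_span (s : Set (Fin 4 → k)) :
    Ideal.span (lin '' (Submodule.span k s : Set (Fin 4 → k))) = Ideal.span (lin '' s) := by
  apply le_antisymm
  · rw [Ideal.span_le]
    rintro _ ⟨b, hb, rfl⟩
    induction hb using Submodule.span_induction with
    | mem x hx => exact Ideal.subset_span ⟨x, hx, rfl⟩
    | zero =>
      rw [GPO_lin_zero]
      exact Ideal.zero_mem _
    | add x y _ _ hx hy =>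
      rw [GPO_lin_add]
      exact Ideal.add_mem _ hx hy
    | smul c x _ hx =>
      rw [GPO_lin_smul]
      exact Ideal.mul_mem_left _ _ hx
  · exact Ideal.span_mono (Set.image_mono Submodule.subset_span)

end GPO

theorem T_GPO : P_GPO.{u} := by
  intro hPR k _ m al hA
  have hprime : ∀ s : Set (Fin 4 → k), (Ideal.span (lin '' s)).IsPrime := fun s => by
    rw [← GPO_span]
    exact (hPR k _).1
  have hmem : ∀ (s : Set (Fin 4 → k)) (b : Fin 4 → k),
      lin b ∈ Ideal.span (lin '' s) ↔ b ∈ Submodule.span k s := fun s b => by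
    rw [← GPO_span]
    exact (hPR k _).2 b
  have e1 : ∀ i, ({ll al i} : Set (MvPolynomial (Fin 4) k)) = lin '' {al i} := fun i => by
    rw [Set.image_singleton]
    rfl
  have e2 : ∀ i j, ({ll al i, ll al j} : Set (MvPolynomial (Fin 4) k)) = lin '' {al i, al j} := fun i j => by
    rw [Set.image_pair]
    rfl
  constructor
  · intro i _ h0
    have h1 : lin (al i) ∈ Ideal.span (lin '' (∅ : Set (Fin 4 → k))) := by
      have : lin (al i) = 0 := h0
      rw [this]
      exact Ideal.zero_mem _
    rw [hmem, Submodule.span_empty, Submodule.mem_bot] at h1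
    exact hA.i1 i h1
  · intro i _
    rw [e1]
    exact hprime _
  · intro i _ j _ hij h
    rw [e1] at h
    have h1 := (hmem _ _).1 h
    obtain ⟨c, hc⟩ := Submodule.mem_span_singleton.1 h1
    have h2 := LinearIndependent.pair_iff.1 (hA.i2 i j hij) c (-1) (by rw [hc]; simp)
    exact absurd h2.2 (by simp)
  · intro i _ j _ _
    rw [e2]
    exact hprime _
  · intro i _ j _ t _ hij hti htj h
    rw [e2] at h
    have h1 := (hmem _ _).1 h
    obtain ⟨c, d, hcd⟩ := Submodule.mem_span_pair.1 h1
    have h2 := Fintype.linearIndependent_iff.1 (hA.i3 i j t hij hti htj) ![c, d, -1] (by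
      rw [Fin.sum_univ_three]
      simp only [Matrix.cons_val_zero, Matrix.cons_val_one, Matrix.cons_val_two, Matrix.head_cons,
        Matrix.tail_cons, Matrix.cons_val]
      rw [hcd]
      simp) 2
    simp at h2

end Pool.Agent.T2H84.SJ
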