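import Pool.Agent.T2H84.SJ.Stm

set_option autoImplicit false

namespace Pool.Agent.T2H84.SJ

open MvPolynomial Matrix TensorProduct

universe u

theorem LOC_exists_matrix (k : Type u) [Field k] (W : Submodule k (Fin 4 → k)) (hW : W ≠ ⊤) :
    ∃ (Y : Matrix (Fin 4) (Fin 3) k) (Z : Matrix (Fin 3) (Fin 4) k), Z * Y = 1 ∧
      ∀ w ∈ W, Y *ᵥ (Z *ᵥ w) = w := by
  obtain ⟨φ, hφ0, hφ⟩ := Submodule.exists_le_ker_of_lt_top W (lt_top_iff_ne_top.mpr hW)
  have hfr : Module.finrank k (Fin 3 → k) = Module.finrank k (LinearMap.ker φ) := by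
    have h1 := Module.Dual.finrank_ker_add_one_of_ne_zero (f := φ) hφ0
    rw [Module.finrank_fin_fun] at h1 ⊢
    omega
  let e : (Fin 3 → k) ≃ₗ[k] LinearMap.ker φ := LinearEquiv.ofFinrankEq _ _ hfr
  let Yl : (Fin 3 → k) →ₗ[k] (Fin 4 → k) := (LinearMap.ker φ).subtype ∘ₗ e.toLinearMap
  have hYi : LinearMap.ker Yl = ⊥ := by
    rw [LinearMap.ker_eq_bot]
    exact (LinearMap.ker φ).injective_subtype.comp e.injective
  obtain ⟨Zl, hZ⟩ := LinearMap.exists_leftInverse_of_injective Yl hYi
  refine ⟨LinearMap.toMatrix' Yl, LinearMap.toMatrix' Zl, ?_, ?_⟩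
  · rw [← LinearMap.toMatrix'_comp, hZ, LinearMap.toMatrix'_id]
  · intro w hw
    rw [LinearMap.toMatrix'_mulVec, LinearMap.toMatrix'_mulVec]
    have hwk : w ∈ LinearMap.ker φ := hφ hw
    have h1 : Yl (e.symm ⟨w, hwk⟩) = w := by
      simp [Yl]
    have h2 : Zl w = e.symm ⟨w, hwk⟩ := by
      have h3 := LinearMap.congr_fun hZ (e.symm ⟨w, hwk⟩)
      rw [LinearMap.comp_apply, h1] at h3
      exact h3
    rw [h2, h1]

theorem T_LOC : P_LOC.{u} := by
  intro hR3 hTRF hEUL k _ _ m al hA hGP S hS hsp a ha hfa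
  obtain ⟨hE1, -⟩ := hEUL
  obtain ⟨Y, Z, hZY, hYZ⟩ := LOC_exists_matrix k (Submodule.span k (al '' (S : Set (Fin m)))) hsp
  have hYal : ∀ i ∈ S, Y *ᵥ (Z *ᵥ al i) = al i := fun i hi =>
    hYZ _ (Submodule.subset_span ⟨i, hi, rfl⟩)
  set l : Fin m → MvPolynomial (Fin 4) k := ll al with hl
  set a' : Fin m → Fin 3 → k := fun i => Z *ᵥ al i with ha'
  set y : Fin 3 → MvPolynomial (Fin 4) k := fun p => lin (fun q => Y q p) with hy
  set u : MvPolynomial (Fin 4) k := ∏ i ∈ Sᶜ, l i with hu
  set g : MvPolynomial (Fin 4) k := ∏ i ∈ S, l i with hg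
  set κ : Fin 4 → MvPolynomial (Fin 4) k := hv Sᶜ al l with hκ
  set h : Fin 3 → MvPolynomial (Fin 4) k := hv S a' l with hh
  have hlS : ∀ i ∈ S, l i = ∑ p, algebraMap k (MvPolynomial (Fin 4) k) (a' i p) * y p := by
    intro i hi
    have h1 : l i = ∑ q, C (al i q) * X q := rfl
    have h2 : ∀ q, al i q = ∑ p, Y q p * a' i p := by
      intro q
      have h3 := congrFun (hYal i hi) q
      exact h3.symm
    rw [h1]
    have h4 : ∀ q, C (al i q) * X q =
        ∑ p, C (a' i p) * (C (Y q p) * X q : MvPolynomial (Fin 4) k) := by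
      intro q
      rw [h2 q, map_sum, Finset.sum_mul]
      refine Finset.sum_congr rfl fun p _ => ?_
      rw [map_mul]
      ring
    rw [Finset.sum_congr rfl fun q _ => h4 q, Finset.sum_comm]
    refine Finset.sum_congr rfl fun p _ => ?_
    rw [← Finset.mul_sum]
    rfl
  have hyh : ∑ p, y p * h p = (S.card : MvPolynomial (Fin 4) k) * g :=
    hE1 k (MvPolynomial (Fin 4) k) 3 m S a' y l hlS
  have hxf : ∑ p, X p * fv al p = (m : MvPolynomial (Fin 4) k) * (u * g) := by
    have h1 := hE1 k (MvPolynomial (Fin 4) k) 4 m Finset.univ al X l (fun i _ => rfl)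
    rw [Finset.card_univ, Fintype.card_fin] at h1
    rw [hu, hg, mul_comm (∏ i ∈ Sᶜ, l i), Finset.prod_mul_prod_compl]
    exact h1
  have hfv : ∀ q, fv al q = u * ∑ p, C (Y q p) * h p + g * κ q := by
    intro q
    have h1 : fv al q = ∑ i, (∏ j ∈ Finset.univ.erase i, l j) * C (al i q) := rfl
    rw [h1, ← Finset.sum_add_sum_compl S]
    congr 1
    · have h2 : ∀ i ∈ S, (∏ j ∈ Finset.univ.erase i, l j) * C (al i q) =
          ∑ p, u * (C (Y q p) * ((∏ j ∈ S.erase i, l j) * C (a' i p))) := by
        intro i hi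
        have h3 : ∏ j ∈ Finset.univ.erase i, l j = (∏ j ∈ S.erase i, l j) * u := by
          rw [hu, ← Finset.prod_union]
          · refine Finset.prod_congr ?_ fun _ _ => rfl
            ext j
            simp only [Finset.mem_erase, Finset.mem_univ, and_true, Finset.mem_union,
              Finset.mem_compl]
            constructor
            · intro hj
              by_cases hjS : j ∈ S
              · exact Or.inl ⟨hj, hjS⟩
              · exact Or.inr hjS
            · rintro (hj | hj)
              · exact hj.1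
              · rintro rfl
                exact hj hi
          · rw [Finset.disjoint_left]
            intro j hj hj'
            exact (Finset.mem_compl.mp hj') (Finset.mem_of_mem_erase hj)
        have h4 : al i q = ∑ p, Y q p * a' i p := (congrFun (hYal i hi) q).symm
        rw [h3, h4, map_sum, Finset.mul_sum]
        refine Finset.sum_congr rfl fun p _ => ?_
        rw [map_mul]
        ring
      rw [Finset.sum_congr rfl h2, Finset.sum_comm, Finset.mul_sum]
      refine Finset.sum_congr rfl fun p _ => ?_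
      rw [← Finset.mul_sum, ← Finset.mul_sum]
      rfl
    · have h2 : ∀ i ∈ Sᶜ, (∏ j ∈ Finset.univ.erase i, l j) * C (al i q) =
          g * ((∏ j ∈ Sᶜ.erase i, l j) * C (al i q)) := by
        intro i hi
        have h3 : ∏ j ∈ Finset.univ.erase i, l j = g * ∏ j ∈ Sᶜ.erase i, l j := by
          rw [hg, ← Finset.prod_union]
          · refine Finset.prod_congr ?_ fun _ _ => rfl
            ext j
            simp only [Finset.mem_erase, Finset.mem_univ, and_true, Finset.mem_union,
              Finset.mem_compl]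
            constructor
            · intro hj
              by_cases hjS : j ∈ S
              · exact Or.inl hjS
              · exact Or.inr ⟨hj, hjS⟩
            · rintro (hj | hj)
              · rintro rfl
                exact (Finset.mem_compl.mp hi) hj
              · exact hj.1
          · rw [Finset.disjoint_left]
            intro j hj hj'
            exact (Finset.mem_compl.mp (Finset.mem_of_mem_erase hj')) hj
        rw [h3]
        ring
      rw [Finset.sum_congr rfl h2, ← Finset.mul_sum]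
      rfl
  have hn : (S.card : k) ≠ 0 := by
    exact_mod_cast (Finset.card_pos.mpr hS).ne'
  have hm : (m : k) ≠ 0 := by
    obtain ⟨i, -⟩ := hS
    have := i.pos
    exact_mod_cast this.ne'
  have hnC : C ((S.card : k)⁻¹) * (S.card : MvPolynomial (Fin 4) k) = 1 := by
    rw [← map_natCast (C : k →+* MvPolynomial (Fin 4) k), ← map_mul, inv_mul_cancel₀ hn, map_one]
  have hmC : C ((m : k)⁻¹) * (m : MvPolynomial (Fin 4) k) = 1 := by
    rw [← map_natCast (C : k →+* MvPolynomial (Fin 4) k), ← map_mul, inv_mul_cancel₀ hm, map_one]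
  set M : Matrix (Fin 4) (Fin 3) (MvPolynomial (Fin 4) k) :=
    fun q p => u * C (Y q p) + C ((S.card : k)⁻¹) * κ q * y p with hM
  set N : Matrix (Fin 3) (Fin 4) (MvPolynomial (Fin 4) k) :=
    fun p q => u * C (Z p q) - C ((m : k)⁻¹) * (∑ r, C (Z p r) * κ r) * X q with hN
  have hMh : M *ᵥ h = fv al := by
    funext q
    change ∑ p, (u * C (Y q p) + C ((S.card : k)⁻¹) * κ q * y p) * h p = _
    have h1 : ∀ p, (u * C (Y q p) + C ((S.card : k)⁻¹) * κ q * y p) * h p =
        u * (C (Y q p) * h p) + C ((S.card : k)⁻¹) * κ q * (y p * h p) := by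
      intro p
      ring
    rw [Finset.sum_congr rfl fun p _ => h1 p, Finset.sum_add_distrib, ← Finset.mul_sum,
      ← Finset.mul_sum, hyh, hfv q]
    linear_combination (κ q * g) * hnC
  have hNf : N *ᵥ fv al = (u ^ 2) • h := by
    funext p
    change ∑ q, (u * C (Z p q) - C ((m : k)⁻¹) * (∑ r, C (Z p r) * κ r) * X q) * fv al q =
      u ^ 2 * h p
    have h1 : ∀ q, (u * C (Z p q) - C ((m : k)⁻¹) * (∑ r, C (Z p r) * κ r) * X q) * fv al q =
        u * (C (Z p q) * fv al q) - C ((m : k)⁻¹) * (∑ r, C (Z p r) * κ r) * (X q * fv al q) := by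
      intro q
      ring
    rw [Finset.sum_congr rfl fun q _ => h1 q, Finset.sum_sub_distrib, ← Finset.mul_sum,
      ← Finset.mul_sum, hxf]
    have h2 : ∑ q, C (Z p q) * fv al q = u * h p + g * ∑ r, C (Z p r) * κ r := by
      have h3 : ∀ q, C (Z p q) * fv al q =
          u * ∑ r, (C (Z p q * Y q r)) * h r + g * (C (Z p q) * κ q) := by
        intro q
        rw [hfv q, mul_add]
        congr 1
        · rw [mul_left_comm, Finset.mul_sum]
          congr 1
          refine Finset.sum_congr rfl fun r _ => ?_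
          rw [map_mul]
          ring
        · ring
      rw [Finset.sum_congr rfl fun q _ => h3 q, Finset.sum_add_distrib, ← Finset.mul_sum,
        ← Finset.mul_sum, Finset.sum_comm]
      congr 2
      have h4 : ∀ r, ∑ q, C (Z p q * Y q r) * h r =
          (if r = p then (1 : MvPolynomial (Fin 4) k) else 0) * h r := by
        intro r
        rw [← Finset.sum_mul, ← map_sum]
        have h5 : ∑ q, Z p q * Y q r = (1 : Matrix (Fin 3) (Fin 3) k) p r := by
          rw [← hZY]; rfl
        rw [h5, Matrix.one_apply]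
        congr 1
        by_cases hrp : r = p
        · rw [if_pos hrp.symm, if_pos hrp, map_one]
        · rw [if_neg (fun hh => hrp hh.symm), if_neg hrp, map_zero]
      rw [Finset.sum_congr rfl fun r _ => h4 r]
      simp only [ite_mul, one_mul, zero_mul, Finset.sum_ite_eq', Finset.mem_univ, if_true]
    rw [h2]
    linear_combination (-(∑ r, C (Z p r) * κ r) * u * g) * hmC
  have hGS : GP S l := by
    refine ⟨?_, ?_, ?_, ?_, ?_⟩
    · exact fun i _ => hGP.ne i (Finset.mem_univ _)
    · exact fun i _ => hGP.p1 i (Finset.mem_univ _)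
    · exact fun i _ j _ hij => hGP.n1 i (Finset.mem_univ _) j (Finset.mem_univ _) hij
    · exact fun i _ j _ hij => hGP.p2 i (Finset.mem_univ _) j (Finset.mem_univ _) hij
    · exact fun i _ j _ t _ hij hti htj => hGP.n2 i (Finset.mem_univ _) j (Finset.mem_univ _) t
        (Finset.mem_univ _) hij hti htj
  have ha'0 : ∀ i ∈ S, a' i ≠ 0 := by
    intro i hi h0
    have h1 := hYal i hi
    have h2 : Z *ᵥ al i = 0 := h0
    rw [h2, Matrix.mulVec_zero] at h1
    exact hA.i1 i h1.symm
  have ha'2 : ∀ i ∈ S, ∀ j ∈ S, i ≠ j → ∃ p q, a' i p * a' j q - a' i q * a' j p ≠ 0 := by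
    intro i hi j hj hij
    by_contra hcon
    push Not at hcon
    obtain ⟨p, hp⟩ : ∃ p, a' i p ≠ 0 := by
      by_contra h0
      push Not at h0
      exact ha'0 i hi (funext h0)
    have h1 : a' j = (a' j p / a' i p) • a' i := by
      funext q
      simp only [Pi.smul_apply, smul_eq_mul]
      have h2 := hcon p q
      field_simp
      linear_combination h2
    have h2 : al j = (a' j p / a' i p) • al i := by
      have h3 : Y *ᵥ a' j = al j := hYal j hj
      have h4 : Y *ᵥ a' i = al i := hYal i hi
      rw [← h3, h1, Matrix.mulVec_smul, h4]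
      simp [hp]
    have h3 := Fintype.linearIndependent_iff.mp (hA.i2 i j hij) ![a' j p / a' i p, -1] (by
      rw [Fin.sum_univ_two]
      simp only [Matrix.cons_val_zero, Matrix.cons_val_one]
      rw [← h2, neg_one_smul, add_neg_cancel]) 1
    simp at h3
  have hSyz : Syz h := hR3 k (MvPolynomial (Fin 4) k) m S a' y l hS hGS ha'0 ha'2 hlS
  have h1 := hTRF (MvPolynomial (Fin 4) k) 3 4 h (fv al) M N (u ^ 2) hMh hNf hSyz a ha hfa
  have h2 : (u ^ 2) ^ 2 = u ^ 4 := by ring
  rw [h2] at h1
  exact h1

end Pool.Agent.T2H84.SJ
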