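import Pool.Agent.T2H84.SJ.Stm

set_option autoImplicit false

namespace Pool.Agent.T2H84.SJ

open MvPolynomial Matrix TensorProduct

universe u

theorem T_PA : P_PA.{u} := by
  intro hE k _ _ m al hm s hs
  obtain ⟨hE1, -⟩ := hE
  have hx : ∑ p, X p * fv al p = ((Finset.univ : Finset (Fin m)).card : MvPolynomial (Fin 4) k) * ∏ i, ll al i :=
    hE1 k (MvPolynomial (Fin 4) k) 4 m Finset.univ al (fun p => X p) (ll al) (by
      intro i _
      simp [ll, lin, MvPolynomial.algebraMap_eq])
  have hm0 : (m : k) ≠ 0 := by exact_mod_cast hm.ne'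
  have hC : (C ((m : k)⁻¹) : MvPolynomial (Fin 4) k) * (m : MvPolynomial (Fin 4) k) = 1 := by
    have : (m : MvPolynomial (Fin 4) k) = C (m : k) := by simp
    rw [this, ← C_mul, inv_mul_cancel₀ hm0, C_1]
  refine ⟨fun i j => C ((m : k)⁻¹) * (s i * X j - X i * s j), ?_, ?_, ?_⟩
  · intro i; ring
  · intro i j; ring
  · funext i
    have e : ((fun i j => C ((m : k)⁻¹) * (s i * X j - X i * s j) : Matrix (Fin 4) (Fin 4) (MvPolynomial (Fin 4) k)) *ᵥ fv al) i
        = C ((m : k)⁻¹) * (s i * ∑ p, X p * fv al p - X i * ∑ p, fv al p * s p) := by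
      simp only [Matrix.mulVec, dotProduct, Fin.sum_univ_four]
      ring
    rw [e, hx, hs]
    simp only [Finset.card_univ, Fintype.card_fin, Pi.smul_apply, smul_eq_mul]
    linear_combination (s i * ∏ i, ll al i) * hC

end Pool.Agent.T2H84.SJ
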