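import Pool.Agent.T2H84.SJ.Stm

/-! # Package PR: linear ideals are prime -/

set_option autoImplicit false

namespace Pool.Agent.T2H84.SJ

open MvPolynomial Matrix TensorProduct

universe u

section

variable {k : Type u} [Field k]

lemma PR_lin_add (b c : Fin 4 → k) : lin (b + c) = lin b + lin c := by
  unfold lin
  rw [← Finset.sum_add_distrib]
  refine Finset.sum_congr rfl fun j _ => ?_
  rw [Pi.add_apply, C_add, add_mul]

lemma PR_lin_smul (r : k) (b : Fin 4 → k) : lin (r • b) = C r * lin b := by
  unfold lin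
  rw [Finset.mul_sum]
  refine Finset.sum_congr rfl fun j _ => ?_
  rw [Pi.smul_apply, smul_eq_mul, C_mul, mul_assoc]

/-- `lin` as a linear map -/
noncomputable def PR_L : (Fin 4 → k) →ₗ[k] MvPolynomial (Fin 4) k where
  toFun := lin
  map_add' := PR_lin_add
  map_smul' r b := by rw [PR_lin_smul, RingHom.id_apply, MvPolynomial.smul_eq_C_mul]

lemma PR_L_apply (b : Fin 4 → k) : PR_L b = lin b := rfl

lemma PR_lin_single (j : Fin 4) : lin (Pi.single j (1 : k)) = X j := by
  unfold lin
  rw [Finset.sum_eq_single j]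
  · rw [Pi.single_eq_same, C_1, one_mul]
  · intro i _ hi
    rw [Pi.single_eq_of_ne hi, C_0, zero_mul]
  · intro h
    exact absurd (Finset.mem_univ j) h

lemma PR_coeff (b : Fin 4 → k) (j : Fin 4) : (lin b).coeff (Finsupp.single j 1) = b j := by
  unfold lin
  rw [coeff_sum, Finset.sum_eq_single j]
  · rw [coeff_C_mul, coeff_X', if_pos rfl, mul_one]
  · intro i _ hi
    rw [coeff_C_mul, coeff_X', if_neg, mul_zero]
    intro h
    exact hi (Finsupp.single_left_injective one_ne_zero h)
  · intro h
    exact absurd (Finset.mem_univ j) h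

lemma PR_lin_eq_zero {b : Fin 4 → k} (h : lin b = 0) : b = 0 := by
  funext j
  rw [← PR_coeff b j, h, coeff_zero, Pi.zero_apply]

/-- the substitution by a linear map -/
noncomputable def PR_phi (T : (Fin 4 → k) →ₗ[k] (Fin 4 → k)) :
    MvPolynomial (Fin 4) k →ₐ[k] MvPolynomial (Fin 4) k :=
  aeval fun j => lin (T (Pi.single j 1))

lemma PR_phi_lin (T : (Fin 4 → k) →ₗ[k] (Fin 4 → k)) (b : Fin 4 → k) :
    PR_phi T (lin b) = lin (T b) := by
  have h1 : ((PR_phi T).toLinearMap ∘ₗ PR_L) = PR_L ∘ₗ T := by
    refine LinearMap.pi_ext' fun j => ?_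
    ext1
    change PR_phi T (lin (Pi.single j 1)) = lin (T (Pi.single j 1))
    rw [PR_lin_single, PR_phi, aeval_X]
  exact LinearMap.congr_fun h1 b

end

theorem T_PR : P_PR.{u} := by
  intro k _ U
  obtain ⟨W, hW⟩ := Submodule.exists_isCompl U
  obtain ⟨T, hT⟩ : ∃ T : (Fin 4 → k) →ₗ[k] (Fin 4 → k), T = W.projection U hW.symm := ⟨_, rfl⟩
  have hT0 : ∀ b, T b = 0 ↔ b ∈ U := fun b => by
    rw [hT, Submodule.projection_apply_eq_zero_iff]
  have hT1 : ∀ b, b - T b ∈ U := fun b => by
    rw [hT]; exact Submodule.sub_projection_mem hW.symm b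
  obtain ⟨I, hI⟩ : ∃ I : Ideal (MvPolynomial (Fin 4) k), I = Ideal.span (lin '' (U : Set (Fin 4 → k))) :=
    ⟨_, rfl⟩
  have hmem : ∀ b ∈ U, lin b ∈ I := fun b hb => by
    rw [hI]; exact Ideal.subset_span ⟨b, hb, rfl⟩
  have hker : I = RingHom.ker (PR_phi T) := by
    apply le_antisymm
    · rw [hI, Ideal.span_le]
      rintro _ ⟨b, hb, rfl⟩
      change PR_phi T (lin b) = 0
      rw [PR_phi_lin, (hT0 b).2 hb]
      exact PR_L.map_zero
    · intro p hp
      have h1 : ∀ q : MvPolynomial (Fin 4) k, q - PR_phi T q ∈ I := by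
        intro q
        induction q using MvPolynomial.induction_on with
        | C a =>
          have : PR_phi T (C a) = C a := by
            rw [PR_phi, ← MvPolynomial.algebraMap_eq, AlgHom.commutes]
          rw [this, sub_self]
          exact I.zero_mem
        | add p q hp hq =>
          rw [map_add]
          have : p + q - (PR_phi T p + PR_phi T q) = (p - PR_phi T p) + (q - PR_phi T q) := by ring
          rw [this]
          exact I.add_mem hp hq
        | mul_X p j hp =>
          rw [map_mul]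
          have h2 : X j - PR_phi T (X j) ∈ I := by
            rw [← PR_lin_single, PR_phi_lin]
            have := hmem _ (hT1 (Pi.single j 1))
            rwa [← PR_L_apply, map_sub, PR_L_apply, PR_L_apply] at this
          have : p * X j - PR_phi T p * PR_phi T (X j) =
              (p - PR_phi T p) * X j + PR_phi T p * (X j - PR_phi T (X j)) := by ring
          rw [this]
          exact I.add_mem (I.mul_mem_right _ hp) (I.mul_mem_left _ h2)
      have h2 := h1 p
      have h3 : PR_phi T p = 0 := hp
      rwa [h3, sub_zero] at h2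
  rw [← hI]
  refine ⟨?_, fun b => ⟨fun hb => ?_, hmem b⟩⟩
  · rw [hker]
    exact RingHom.ker_isPrime _
  · rw [hker] at hb
    have h1 : PR_phi T (lin b) = 0 := hb
    rw [PR_phi_lin] at h1
    exact (hT0 b).1 (PR_lin_eq_zero h1)

end Pool.Agent.T2H84.SJ
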