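import Pool.Agent.T2H84.SJ.Stm

/-! Package R3 of project SJ. -/

set_option autoImplicit false

namespace Pool.Agent.T2H84.SJ

open MvPolynomial Matrix TensorProduct

universe u

lemma r3_prod_notMem {A : Type u} [CommRing A] {m : ℕ} {P : Ideal A} (hP : P.IsPrime)
    (T : Finset (Fin m)) (l : Fin m → A) (h : ∀ t ∈ T, l t ∉ P) : ∏ t ∈ T, l t ∉ P := by
  intro hc
  obtain ⟨t, ht, htP⟩ := (Ideal.IsPrime.prod_mem_iff).1 hc
  exact h t ht htP

/-- the cross product -/
lemma r3_cross {A : Type u} [CommRing A] (h s y : Fin 3 → A) (N : A)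
    (hy : h 0 * y 0 + h 1 * y 1 + h 2 * y 2 = N) (hs : h 0 * s 0 + h 1 * s 1 + h 2 * s 2 = 0) :
    ∃ w : Fin 3 → A, (∀ p q, ∃ σ, h p * w q - h q * w p = N * σ ∧
        ∀ I : Ideal A, (∀ r, s r ∈ I) → σ ∈ I) ∧
      h 1 * w 2 - h 2 * w 1 = N * s 0 ∧ h 2 * w 0 - h 0 * w 2 = N * s 1 ∧
      h 0 * w 1 - h 1 * w 0 = N * s 2 := by
  refine ⟨![s 1 * y 2 - s 2 * y 1, s 2 * y 0 - s 0 * y 2, s 0 * y 1 - s 1 * y 0], ?_, ?_, ?_, ?_⟩
  · have h12 : h 1 * (s 0 * y 1 - s 1 * y 0) - h 2 * (s 2 * y 0 - s 0 * y 2) = N * s 0 := by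
      linear_combination s 0 * hy - y 0 * hs
    have h20 : h 2 * (s 1 * y 2 - s 2 * y 1) - h 0 * (s 0 * y 1 - s 1 * y 0) = N * s 1 := by
      linear_combination s 1 * hy - y 1 * hs
    have h01 : h 0 * (s 2 * y 0 - s 0 * y 2) - h 1 * (s 1 * y 2 - s 2 * y 1) = N * s 2 := by
      linear_combination s 2 * hy - y 2 * hs
    intro p q
    fin_cases p <;> fin_cases q
    · exact ⟨0, by simp, fun I _ => I.zero_mem⟩
    · exact ⟨s 2, by simpa using h01, fun I hI => hI 2⟩
    · refine ⟨- s 1, ?_, fun I hI => I.neg_mem_iff.2 (hI 1)⟩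
      simp
      linear_combination - h20
    · refine ⟨- s 2, ?_, fun I hI => I.neg_mem_iff.2 (hI 2)⟩
      simp
      linear_combination - h01
    · exact ⟨0, by simp, fun I _ => I.zero_mem⟩
    · exact ⟨s 0, by simpa using h12, fun I hI => hI 0⟩
    · exact ⟨s 1, by simpa using h20, fun I hI => hI 1⟩
    · refine ⟨- s 0, ?_, fun I hI => I.neg_mem_iff.2 (hI 0)⟩
      simp
      linear_combination - h12
    · exact ⟨0, by simp, fun I _ => I.zero_mem⟩
  · simp
    linear_combination s 0 * hy - y 0 * hs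
  · simp
    linear_combination s 1 * hy - y 1 * hs
  · simp
    linear_combination s 2 * hy - y 2 * hs

theorem T_R3 : P_R3.{u} := by
  intro H1 H2 k A _ _ _ _ _ m S a y l hSne hG ha hij hl M hM hMf
  classical
  obtain ⟨g, hg⟩ : ∃ g : Fin m → A, g = fun i => ∏ j ∈ S.erase i, l j := ⟨_, rfl⟩
  obtain ⟨al, hal⟩ : ∃ al : Fin m → Fin 3 → A, al = fun i p => algebraMap k A (a i p) := ⟨_, rfl⟩
  obtain ⟨h, hhd⟩ : ∃ h : Fin 3 → A, h = hv S a l := ⟨_, rfl⟩
  have hh : ∀ p, h p = ∑ i ∈ S, g i * al i p := by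
    intro p
    rw [hhd, hg, hal]
    rfl
  rw [← hhd] at hMf ⊢
  obtain ⟨s, hs⟩ : ∃ s : Fin 3 → A, s = M *ᵥ h := ⟨_, rfl⟩
  rw [← hs] at hMf ⊢
  obtain ⟨G, hGd⟩ : ∃ G : A, G = ∏ i ∈ S, l i := ⟨_, rfl⟩
  have hG0 : G ≠ 0 := by
    rw [hGd]
    exact Finset.prod_ne_zero_iff.2 fun i hi => hG.ne i hi
  have hgl : ∀ i ∈ S, g i * l i = G := by
    intro i hi
    rw [hg, hGd]
    exact Finset.prod_erase_mul S l hi
  -- Euler
  have hyh : h 0 * y 0 + h 1 * y 1 + h 2 * y 2 = (S.card : A) * G := by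
    have h1 : ∑ p, h p * y p = (S.card : A) * G := by
      simp_rw [hh, Finset.sum_mul]
      rw [Finset.sum_comm]
      have h2 : ∀ i ∈ S, ∑ p, g i * al i p * y p = G := by
        intro i hi
        rw [← hgl i hi, hl i hi, Finset.mul_sum, hal]
        refine Finset.sum_congr rfl fun p _ => ?_
        ring
      rw [Finset.sum_congr rfl h2, Finset.sum_const, nsmul_eq_mul]
    rw [Fin.sum_univ_three] at h1
    exact h1
  have hsh : h 0 * s 0 + h 1 * s 1 + h 2 * s 2 = 0 := by
    rw [Fin.sum_univ_three] at hMf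
    exact hMf
  obtain ⟨w, hw1, hw2, hw3, hw4⟩ := r3_cross h s y _ hyh hsh
  have hGl : ∀ i ∈ S, G ∈ Ideal.span {l i} := by
    intro i hi
    rw [Ideal.mem_span_singleton, hGd]
    exact Finset.dvd_prod_of_mem l hi
  obtain ⟨c, w', hcw⟩ := H2 k A 3 m S a l hG ha hij w (by
    intro i hi p q
    obtain ⟨σ, h1, _⟩ := hw1 p q
    rw [← hhd, h1, mul_assoc]
    exact Ideal.mul_mem_left _ _ (Ideal.mul_mem_right _ _ (hGl i hi)))
  have hcw' : ∀ p, w p = ∑ i ∈ S, c i * g i * al i p + G * w' p := by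
    intro p
    rw [hcw p, hg, hal, hGd]
  -- the differences
  have hcij : ∀ i ∈ S, ∀ j ∈ S, i ≠ j → c i - c j ∈ Ideal.span {l i, l j} := by
    intro i hi j hj hne
    have hP := hG.p2 i hi j hj hne
    have hji : j ∈ S.erase i := Finset.mem_erase.2 ⟨hne.symm, hj⟩
    obtain ⟨R, hR⟩ : ∃ R : Finset (Fin m), R = (S.erase i).erase j := ⟨_, rfl⟩
    obtain ⟨u, hu⟩ : ∃ u : A, u = ∏ r ∈ R, l r := ⟨_, rfl⟩
    have hRS : ∀ r ∈ R, r ∈ S ∧ r ≠ i ∧ r ≠ j := by
      intro r hr
      rw [hR, Finset.mem_erase, Finset.mem_erase] at hr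
      exact ⟨hr.2.2, hr.2.1, hr.1⟩
    have hgi : g i = l j * u := by
      rw [hg, hu, hR]
      exact (Finset.mul_prod_erase (S.erase i) l hji).symm
    have hgj : g j = l i * u := by
      rw [hg, hu, hR, Finset.erase_right_comm]
      exact (Finset.mul_prod_erase (S.erase j) l (Finset.mem_erase.2 ⟨hne, hi⟩)).symm
    have hGu : G = l i * l j * u := by
      rw [← hgl i hi, hgi]
      ring
    -- decomposition of sums
    have hsum : ∀ F : Fin m → A, ∑ t ∈ S, F t = F i + (F j + ∑ t ∈ R, F t) := by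
      intro F
      rw [hR, Finset.add_sum_erase (S.erase i) F hji, Finset.add_sum_erase S F hi]
    have hgt : ∀ t, ∃ x : A, t ∈ R → g t = l i * l j * x := by
      intro t
      by_cases htR : t ∈ R
      · obtain ⟨h1, h2, h3⟩ := hRS t htR
        refine ⟨∏ r ∈ ((S.erase t).erase i).erase j, l r, fun _ => ?_⟩
        rw [hg]
        beta_reduce
        rw [← Finset.mul_prod_erase (S.erase t) l (Finset.mem_erase.2 ⟨h2.symm, hi⟩),
          ← Finset.mul_prod_erase ((S.erase t).erase i) l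
            (Finset.mem_erase.2 ⟨hne.symm, Finset.mem_erase.2 ⟨h3.symm, hj⟩⟩)]
        ring
      · exact ⟨0, fun h => absurd h htR⟩
    choose x hx using hgt
    have hhp : ∀ p, ∃ κ, h p = u * (l j * al i p + l i * al j p) + l i * l j * κ := by
      intro p
      refine ⟨∑ t ∈ R, x t * al t p, ?_⟩
      rw [hh, hsum, hgi, hgj, Finset.mul_sum]
      have h1 : ∀ t ∈ R, g t * al t p = l i * l j * (x t * al t p) := fun t ht => by
        rw [hx t ht]
        ring
      rw [Finset.sum_congr rfl h1]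
      ring
    have hwp : ∀ p, ∃ κ, w p = u * (c i * l j * al i p + c j * l i * al j p) + l i * l j * κ := by
      intro p
      refine ⟨∑ t ∈ R, c t * x t * al t p + u * w' p, ?_⟩
      rw [hcw' p, hsum, hgi, hgj, mul_add (l i * l j), Finset.mul_sum, hGu]
      have h1 : ∀ t ∈ R, c t * g t * al t p = l i * l j * (c t * x t * al t p) := fun t ht => by
        rw [hx t ht]
        ring
      rw [Finset.sum_congr rfl h1]
      ring
    have hli : l i ∈ Ideal.span {l i, l j} := Ideal.subset_span (by simp)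
    have hlj : l j ∈ Ideal.span {l i, l j} := Ideal.subset_span (by simp)
    -- `h` and `s` are in the ideal
    have hhI : ∀ p, h p ∈ Ideal.span {l i, l j} := by
      intro p
      obtain ⟨κ, hκ⟩ := hhp p
      rw [hκ]
      refine Ideal.add_mem _ (Ideal.mul_mem_left _ _ (Ideal.add_mem _
        (Ideal.mul_mem_right _ _ hlj) (Ideal.mul_mem_right _ _ hli))) ?_
      exact Ideal.mul_mem_right _ _ (Ideal.mul_mem_right _ _ hli)
    have hsI : ∀ r, s r ∈ Ideal.span {l i, l j} := by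
      intro r
      rw [hs]
      unfold Matrix.mulVec dotProduct
      exact Ideal.sum_mem _ fun p _ => Ideal.mul_mem_left _ _ (hhI p)
    obtain ⟨p, q, hpq⟩ := hij i hi j hj hne
    obtain ⟨σ, hσ1, hσ2⟩ := hw1 p q
    obtain ⟨κp, hκp⟩ := hhp p
    obtain ⟨κq, hκq⟩ := hhp q
    obtain ⟨κp', hκp'⟩ := hwp p
    obtain ⟨κq', hκq'⟩ := hwp q
    have hlij : l i * l j ≠ 0 := mul_ne_zero (hG.ne i hi) (hG.ne j hj)
    have key : u ^ 2 * (c j - c i) * (al i p * al j q - al i q * al j p) =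
        (S.card : A) * u * σ - (u * (l j * al i p + l i * al j p) * κq' -
          u * (l j * al i q + l i * al j q) * κp' +
          κp * u * (c i * l j * al i q + c j * l i * al j q) -
          κq * u * (c i * l j * al i p + c j * l i * al j p) +
          l i * l j * (κp * κq' - κq * κp')) := by
      apply mul_left_cancel₀ hlij
      rw [hκp, hκq, hκp', hκq', hGu] at hσ1
      linear_combination hσ1
    have hkI : u ^ 2 * (c j - c i) * (al i p * al j q - al i q * al j p) ∈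
        Ideal.span {l i, l j} := by
      rw [key]
      have hmA : ∀ z1 z2 : A, l j * z1 + l i * z2 ∈ Ideal.span {l i, l j} := fun z1 z2 =>
        Ideal.add_mem _ (Ideal.mul_mem_right _ _ hlj) (Ideal.mul_mem_right _ _ hli)
      have hmB : ∀ z1 z2 z3 z4 : A, z1 * l j * z2 + z3 * l i * z4 ∈ Ideal.span {l i, l j} :=
        fun z1 z2 z3 z4 => Ideal.add_mem _
          (Ideal.mul_mem_right _ _ (Ideal.mul_mem_left _ _ hlj))
          (Ideal.mul_mem_right _ _ (Ideal.mul_mem_left _ _ hli))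
      refine Ideal.sub_mem _ (Ideal.mul_mem_left _ _ (hσ2 _ hsI)) ?_
      refine Ideal.add_mem _ (Ideal.sub_mem _ (Ideal.add_mem _ (Ideal.sub_mem _ ?_ ?_) ?_) ?_) ?_
      · exact Ideal.mul_mem_right _ _ (Ideal.mul_mem_left _ _ (hmA _ _))
      · exact Ideal.mul_mem_right _ _ (Ideal.mul_mem_left _ _ (hmA _ _))
      · exact Ideal.mul_mem_left _ _ (hmB _ _ _ _)
      · exact Ideal.mul_mem_left _ _ (hmB _ _ _ _)
      · exact Ideal.mul_mem_right _ _ (Ideal.mul_mem_right _ _ hli)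
    have hu' : u ∉ Ideal.span {l i, l j} := by
      rw [hu]
      refine r3_prod_notMem hP R l fun t ht => ?_
      obtain ⟨h1, h2, h3⟩ := hRS t ht
      exact hG.n2 i hi j hj t h1 hne h2 h3
    have hunit : algebraMap k A (a i p * a j q - a i q * a j p)⁻¹ *
        (al i p * al j q - al i q * al j p) = 1 := by
      rw [hal]
      beta_reduce
      rw [← map_mul, ← map_mul, ← map_sub, ← map_mul, inv_mul_cancel₀ hpq, map_one]
    have hk2 : u ^ 2 * (c j - c i) ∈ Ideal.span {l i, l j} := by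
      have := Ideal.mul_mem_left _ (algebraMap k A (a i p * a j q - a i q * a j p)⁻¹) hkI
      convert this using 1
      linear_combination (- (u ^ 2 * (c j - c i))) * hunit
    rcases hP.mem_or_mem hk2 with h1 | h1
    · exact absurd (hP.mem_of_pow_mem 2 h1) hu'
    · have := Ideal.neg_mem_iff _ |>.2 h1
      convert this using 1
      ring
  obtain ⟨h0, hh0⟩ := H1 A m l S hG c hcij
  have hd : ∀ i, ∃ d : A, i ∈ S → c i = h0 + l i * d := by
    intro i
    by_cases hi : i ∈ S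
    · obtain ⟨d, hd⟩ := Ideal.mem_span_singleton'.1 (hh0 i hi)
      exact ⟨d, fun _ => by linear_combination - hd⟩
    · exact ⟨0, fun h => absurd h hi⟩
  choose d hd using hd
  have hwpp : ∀ p, ∃ v, w p = h0 * h p + G * v := by
    intro p
    refine ⟨∑ i ∈ S, d i * al i p + w' p, ?_⟩
    rw [hcw' p, hh p, mul_add, Finset.mul_sum, Finset.mul_sum, ← add_assoc,
      ← Finset.sum_add_distrib]
    congr 1
    refine Finset.sum_congr rfl fun i hi => ?_
    rw [hd i hi, ← hgl i hi]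
    ring
  choose v hv' using hwpp
  obtain ⟨ν, hν⟩ : ∃ ν : A, ν * (S.card : A) = 1 := by
    refine ⟨algebraMap k A ((S.card : k)⁻¹), ?_⟩
    have h1 : (S.card : A) = algebraMap k A (S.card : k) := (map_natCast _ _).symm
    have h2 : (S.card : k) ≠ 0 := Nat.cast_ne_zero.2 (Finset.card_ne_zero.2 hSne)
    rw [h1, ← map_mul, inv_mul_cancel₀ h2, map_one]
  have e0 : (S.card : A) * s 0 = h 1 * v 2 - h 2 * v 1 := by
    apply mul_left_cancel₀ hG0
    rw [hv' 1, hv' 2] at hw2
    linear_combination - hw2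
  have e1 : (S.card : A) * s 1 = h 2 * v 0 - h 0 * v 2 := by
    apply mul_left_cancel₀ hG0
    rw [hv' 0, hv' 2] at hw3
    linear_combination - hw3
  have e2 : (S.card : A) * s 2 = h 0 * v 1 - h 1 * v 0 := by
    apply mul_left_cancel₀ hG0
    rw [hv' 0, hv' 1] at hw4
    linear_combination - hw4
  refine ⟨!![0, ν * v 2, - (ν * v 1); - (ν * v 2), 0, ν * v 0; ν * v 1, - (ν * v 0), 0],
    ?_, ?_, ?_⟩
  · intro i
    fin_cases i <;> simp
  · intro i j
    fin_cases i <;> fin_cases j <;> simp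
  · funext i
    fin_cases i
    · simp [Matrix.mulVec, dotProduct, Fin.sum_univ_three]
      linear_combination (- ν) * e0 + s 0 * hν
    · simp [Matrix.mulVec, dotProduct, Fin.sum_univ_three]
      linear_combination (- ν) * e1 + s 1 * hν
    · simp [Matrix.mulVec, dotProduct, Fin.sum_univ_three]
      linear_combination (- ν) * e2 + s 2 * hν

end Pool.Agent.T2H84.SJ
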