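import Pool.Agent.T2H84.SJ.Stm

set_option autoImplicit false

namespace Pool.Agent.T2H84.SJ

open MvPolynomial Matrix TensorProduct

universe u

theorem RAD_add {A : Type u} [CommRing A] {n : ℕ} {f s t : Fin n → A} (hs : InB f s) (ht : InB f t) :
    InB f (s + t) := by
  obtain ⟨B, h0, h1, h2⟩ := hs
  obtain ⟨B', h0', h1', h2'⟩ := ht
  refine ⟨B + B', ?_, ?_, ?_⟩
  · intro i
    rw [Matrix.add_apply, h0, h0', add_zero]
  · intro i j
    rw [Matrix.add_apply, Matrix.add_apply, h1, h1']
    ring
  · rw [Matrix.add_mulVec, h2, h2']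

theorem RAD_smul {A : Type u} [CommRing A] {n : ℕ} {f s : Fin n → A} (c : A) (hs : InB f s) :
    InB f (c • s) := by
  obtain ⟨B, h0, h1, h2⟩ := hs
  refine ⟨c • B, ?_, ?_, ?_⟩
  · intro i
    rw [Matrix.smul_apply, h0, smul_zero]
  · intro i j
    rw [Matrix.smul_apply, Matrix.smul_apply, h1, smul_neg]
  · rw [Matrix.smul_mulVec, h2]

theorem RAD_zero {A : Type u} [CommRing A] {n : ℕ} (f : Fin n → A) : InB f (0 : Fin n → A) :=
  ⟨0, fun _ => rfl, fun _ _ => by simp, by simp⟩

/-- the ideal of all `r` such that `r s` is a Koszul boundary -/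
def RAD_I {A : Type u} [CommRing A] {n : ℕ} (f s : Fin n → A) : Ideal A where
  carrier := {r | InB f (r • s)}
  add_mem' := by
    intro a b ha hb
    show InB f ((a + b) • s)
    rw [add_smul]
    exact RAD_add ha hb
  zero_mem' := by
    show InB f ((0 : A) • s)
    rw [zero_smul]
    exact RAD_zero f
  smul_mem' := by
    intro c x hx
    show InB f ((c • x) • s)
    rw [smul_assoc]
    exact RAD_smul c hx

theorem RAD_mem {A : Type u} [CommRing A] {n : ℕ} (f s : Fin n → A) (r : A) :
    r ∈ RAD_I f s ↔ InB f (r • s) := Iff.rfl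

/-- `lin` as a linear map -/
noncomputable def RAD_lin (k : Type u) [Field k] : (Fin 4 → k) →ₗ[k] MvPolynomial (Fin 4) k where
  toFun := lin
  map_add' := by
    intro b c
    unfold lin
    rw [← Finset.sum_add_distrib]
    refine Finset.sum_congr rfl fun j _ => ?_
    rw [Pi.add_apply, C_add, add_mul]
  map_smul' := by
    intro r b
    unfold lin
    rw [RingHom.id_apply, Finset.smul_sum]
    refine Finset.sum_congr rfl fun j _ => ?_
    rw [Pi.smul_apply, smul_eq_mul, C_mul, MvPolynomial.smul_eq_C_mul, mul_assoc]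

theorem RAD_span {k : Type u} [Field k] {m : ℕ} (al : Fin m → Fin 4 → k) (P : Ideal (MvPolynomial (Fin 4) k))
    (S : Set (Fin m)) (hS : ∀ i ∈ S, ll al i ∈ P) (b : Fin 4 → k) (hb : b ∈ Submodule.span k (al '' S)) :
    lin b ∈ P := by
  induction hb using Submodule.span_induction with
  | mem x hx =>
    obtain ⟨i, hi, rfl⟩ := hx
    exact hS i hi
  | zero =>
    have : lin (0 : Fin 4 → k) = 0 := (RAD_lin k).map_zero
    rw [this]
    exact P.zero_mem
  | add x y _ _ hx hy =>
    have : lin (x + y) = lin x + lin y := (RAD_lin k).map_add x y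
    rw [this]
    exact P.add_mem hx hy
  | smul a x _ hx =>
    have : lin (a • x) = a • lin x := (RAD_lin k).map_smul a x
    rw [this, MvPolynomial.smul_eq_C_mul]
    exact P.mul_mem_left _ hx

theorem T_RAD : P_RAD.{u} := by
  intro k _ _ m al hArr hPA hLOC hS3 a ha hf
  obtain ⟨la, mu, hLM⟩ := hS3
  set s : Fin 4 → MvPolynomial (Fin 4) k := a *ᵥ fv al with hs
  set I := RAD_I (fv al) s with hI
  have hfI : ∏ i, ll al i ∈ I := hPA s hf
  have hrad : ∀ b : Fin 4 → k, lin b ∈ I.radical := by
    intro b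
    rw [Ideal.radical_eq_sInf, Submodule.mem_sInf]
    rintro P ⟨hIP, hP⟩
    classical
    set S : Finset (Fin m) := Finset.univ.filter (fun i => ll al i ∈ P) with hSdef
    by_cases hsp : Submodule.span k (al '' (S : Set (Fin m))) = ⊤
    · refine RAD_span al P (S : Set (Fin m)) ?_ b (by rw [hsp]; trivial)
      intro i hi
      have : i ∈ S := hi
      rw [hSdef, Finset.mem_filter] at this
      exact this.2
    · exfalso
      by_cases hne : S.Nonempty
      · have h1 : (∏ i ∈ Sᶜ, ll al i) ^ 4 ∈ I := hLOC S hne hsp a ha hf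
        have h2 := hP.mem_of_pow_mem 4 (hIP h1)
        obtain ⟨i, hi, hi2⟩ := (Ideal.IsPrime.prod_mem_iff (hp := hP)).1 h2
        rw [Finset.mem_compl] at hi
        exact hi (Finset.mem_filter.2 ⟨Finset.mem_univ i, hi2⟩)
      · obtain ⟨i, _, hi2⟩ := (Ideal.IsPrime.prod_mem_iff (hp := hP)).1 (hIP hfI)
        exact hne ⟨i, Finset.mem_filter.2 ⟨Finset.mem_univ i, hi2⟩⟩
  obtain ⟨p, hp⟩ := hrad la
  obtain ⟨q, hq⟩ := hrad mu
  have hstep : ∀ r, lin la * r ∈ I → lin mu * r ∈ I → r ∈ I := by
    intro r h1 h2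
    have h1' : InB (fv al) (lin la • (r • s)) := by
      rw [smul_smul]; exact h1
    have h2' : InB (fv al) (lin mu • (r • s)) := by
      rw [smul_smul]; exact h2
    exact hLM (r • s) h1' h2'
  have hind : ∀ n i j : ℕ, p + q ≤ i + j + n → (lin la) ^ i * (lin mu) ^ j ∈ I := by
    intro n
    induction n with
    | zero =>
      intro i j hij
      rcases (by omega : p ≤ i ∨ q ≤ j) with h | h
      · obtain ⟨e, rfl⟩ := Nat.exists_eq_add_of_le h
        rw [pow_add, mul_assoc]
        exact I.mul_mem_right _ hp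
      · obtain ⟨e, rfl⟩ := Nat.exists_eq_add_of_le h
        rw [pow_add]
        refine I.mul_mem_left _ (I.mul_mem_right _ hq)
    | succ n ih =>
      intro i j hij
      refine hstep _ ?_ ?_
      · have := ih (i + 1) j (by omega)
        rw [← mul_assoc, ← pow_succ']
        exact this
      · have := ih i (j + 1) (by omega)
        have e : lin mu * (lin la ^ i * lin mu ^ j) = lin la ^ i * lin mu ^ (j + 1) := by ring
        rw [e]
        exact this
  have h1 := hind (p + q) 0 0 (by omega)
  rw [pow_zero, pow_zero, one_mul] at h1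
  have h2 : InB (fv al) ((1 : MvPolynomial (Fin 4) k) • s) := h1
  rw [one_smul] at h2
  exact h2

end Pool.Agent.T2H84.SJ
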