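import Pool.Agent.T2H84.SJ.Stm

set_option autoImplicit false

namespace Pool.Agent.T2H84.SJ

open MvPolynomial Matrix TensorProduct

universe u

/-- the star operator -/
def starM {A : Type u} [CommRing A] (D : Matrix (Fin 4) (Fin 4) A) : Matrix (Fin 4) (Fin 4) A :=
  !![0, D 2 3, - D 1 3, D 1 2;
     - D 2 3, 0, D 0 3, - D 0 2;
     D 1 3, - D 0 3, 0, D 0 1;
     - D 1 2, D 0 2, - D 0 1, 0]

theorem T_STA : P_STA.{u} := by
  intro A _
  refine ⟨starM, ?_, ?_, ?_⟩
  · intro D D'
    ext i j
    fin_cases i <;> fin_cases j <;> simp [starM, add_comm]
  · intro c D
    ext i j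
    fin_cases i <;> fin_cases j <;> simp [starM]
  · intro D h0 h1
    have e10 : D 1 0 = - D 0 1 := h1 0 1
    have e20 : D 2 0 = - D 0 2 := h1 0 2
    have e30 : D 3 0 = - D 0 3 := h1 0 3
    have e21 : D 2 1 = - D 1 2 := h1 1 2
    have e31 : D 3 1 = - D 1 3 := h1 1 3
    have e32 : D 3 2 = - D 2 3 := h1 2 3
    refine ⟨?_, ?_, ?_, ?_⟩
    · intro i
      fin_cases i <;> simp [starM]
    · intro i j
      fin_cases i <;> fin_cases j <;> simp [starM]
    · ext i j
      fin_cases i <;> fin_cases j <;> simp [starM, h0, e10, e20, e30, e21, e31, e32]
    · intro f
      constructor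
      · intro h
        have g0 := congrFun h 0
        have g1 := congrFun h 1
        have g2 := congrFun h 2
        have g3 := congrFun h 3
        simp only [Matrix.mulVec, dotProduct, Fin.sum_univ_four, h0, e10, e20, e30, e21, e31, e32,
          Pi.zero_apply] at g0 g1 g2 g3
        intro p q r
        fin_cases p <;> fin_cases q <;> fin_cases r <;> simp [starM] <;>
          first
          | linear_combination g0
          | linear_combination -g0
          | linear_combination g1
          | linear_combination -g1
          | linear_combination g2
          | linear_combination -g2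
          | linear_combination g3
          | linear_combination -g3
      · intro h
        have k0 := h 1 2 3
        have k1 := h 0 2 3
        have k2 := h 0 1 3
        have k3 := h 0 1 2
        simp [starM] at k0 k1 k2 k3
        funext i
        fin_cases i <;> simp [Matrix.mulVec, dotProduct, Fin.sum_univ_four, h0, e10, e20, e30, e21, e31, e32]
        · linear_combination k0
        · linear_combination -k1
        · linear_combination k2
        · linear_combination -k3

end Pool.Agent.T2H84.SJ
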