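import Pool.Agent.T2H84.SJ.Stm

set_option autoImplicit false

namespace Pool.Agent.T2H84.SJ

open MvPolynomial Matrix TensorProduct

universe u

/-- an alternating form vanishes on the diagonal -/
theorem TRF_alt {A : Type u} [CommRing A] {n : ℕ} (B : Matrix (Fin n) (Fin n) A) (h0 : ∀ i, B i i = 0)
    (h1 : ∀ i j, B j i = - B i j) (x : Fin n → A) : ∑ p, ∑ q, x p * B p q * x q = 0 := by
  rw [← Finset.sum_product']
  refine Finset.sum_involution (fun z _ => (z.2, z.1)) ?_ ?_ ?_ ?_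
  · intro z _
    simp only
    rw [h1 z.1 z.2]
    ring
  · intro z _ hz h
    apply hz
    have : z.2 = z.1 := congrArg Prod.fst h
    rw [this, h0]
    ring
  · intro z _
    simp
  · intro z _
    rfl

theorem TRF_quad {A : Type u} [CommRing A] {n d : ℕ} (B : Matrix (Fin n) (Fin n) A) (N : Matrix (Fin n) (Fin d) A)
    (i j : Fin d) : (Nᵀ * B * N) i j = ∑ p, ∑ q, N p i * B p q * N q j := by
  rw [Matrix.mul_apply]
  simp_rw [Matrix.mul_apply, Finset.sum_mul, Matrix.transpose_apply]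
  rw [Finset.sum_comm]

theorem T_TRF : P_TRF.{u} := by
  intro A _ n d h f M N v hM hN hS a ha hf
  have haT : aᵀ = a := by
    ext i j
    rw [Matrix.transpose_apply]
    exact ha i j
  have hdot : f ⬝ᵥ (a *ᵥ f) = 0 := hf
  have h1 : ∀ i j, (Mᵀ * a * M) j i = (Mᵀ * a * M) i j := by
    intro i j
    have : (Mᵀ * a * M)ᵀ = Mᵀ * a * M := by
      rw [Matrix.transpose_mul, Matrix.transpose_mul, Matrix.transpose_transpose, haT, Matrix.mul_assoc]
    calc (Mᵀ * a * M) j i = (Mᵀ * a * M)ᵀ i j := rfl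
      _ = (Mᵀ * a * M) i j := by rw [this]
  have h2 : (Mᵀ * a * M) *ᵥ h = Mᵀ *ᵥ (a *ᵥ f) := by
    rw [← Matrix.mulVec_mulVec, ← Matrix.mulVec_mulVec, hM]
  have h3 : ∑ i, h i * ((Mᵀ * a * M) *ᵥ h) i = 0 := by
    have : h ⬝ᵥ ((Mᵀ * a * M) *ᵥ h) = 0 := by
      rw [h2, Matrix.dotProduct_mulVec, Matrix.vecMul_transpose, hM]
      exact hdot
    exact this
  obtain ⟨B', hB0, hB1, hB2⟩ := hS (Mᵀ * a * M) h1 h3
  set E : Matrix (Fin d) (Fin d) A := v • (1 : Matrix (Fin d) (Fin d) A) - M * N with hE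
  have hEf : E *ᵥ f = 0 := by
    rw [hE, Matrix.sub_mulVec, Matrix.smul_mulVec, Matrix.one_mulVec, ← Matrix.mulVec_mulVec, hN,
      Matrix.mulVec_smul, hM, sub_self]
  have hET : Eᵀ = v • (1 : Matrix (Fin d) (Fin d) A) - Nᵀ * Mᵀ := by
    rw [hE, Matrix.transpose_sub, Matrix.transpose_smul, Matrix.transpose_one, Matrix.transpose_mul]
  refine ⟨Nᵀ * B' * N + v • (Eᵀ * a - a * E), ?_, ?_, ?_⟩
  · intro i
    rw [Matrix.add_apply, TRF_quad, Matrix.smul_apply, Matrix.sub_apply]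
    have e1 : ∑ p, ∑ q, N p i * B' p q * N q i = 0 := TRF_alt B' hB0 hB1 (fun p => N p i)
    have e2 : (Eᵀ * a) i i - (a * E) i i = 0 := by
      rw [Matrix.mul_apply, Matrix.mul_apply, ← Finset.sum_sub_distrib]
      refine Finset.sum_eq_zero fun p _ => ?_
      rw [Matrix.transpose_apply, ha i p]
      ring
    rw [e1, e2, smul_zero, add_zero]
  · intro i j
    rw [Matrix.add_apply, Matrix.add_apply, TRF_quad, TRF_quad, Matrix.smul_apply, Matrix.smul_apply,
      Matrix.sub_apply, Matrix.sub_apply]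
    have e1 : ∑ p, ∑ q, N p j * B' p q * N q i = - ∑ p, ∑ q, N p i * B' p q * N q j := by
      rw [Finset.sum_comm, ← Finset.sum_neg_distrib]
      refine Finset.sum_congr rfl fun p _ => ?_
      rw [← Finset.sum_neg_distrib]
      refine Finset.sum_congr rfl fun q _ => ?_
      rw [hB1 p q]
      ring
    have e2 : (Eᵀ * a) j i = (a * E) i j := by
      rw [Matrix.mul_apply, Matrix.mul_apply]
      refine Finset.sum_congr rfl fun p _ => ?_
      rw [Matrix.transpose_apply, ha i p]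
      ring
    have e3 : (a * E) j i = (Eᵀ * a) i j := by
      rw [Matrix.mul_apply, Matrix.mul_apply]
      refine Finset.sum_congr rfl fun p _ => ?_
      rw [Matrix.transpose_apply, ha j p]
      ring
    rw [e1, e2, e3]
    simp only [smul_eq_mul]
    ring
  · rw [Matrix.add_mulVec, Matrix.smul_mulVec, Matrix.sub_mulVec, ← Matrix.mulVec_mulVec, ← Matrix.mulVec_mulVec,
      hN, ← Matrix.mulVec_mulVec, ← Matrix.mulVec_mulVec f a E, hEf, Matrix.mulVec_zero, sub_zero,
      Matrix.mulVec_smul, hB2, h2, Matrix.mulVec_smul, ← smul_add, Matrix.mulVec_mulVec, ← Matrix.add_mulVec, hET]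
    rw [add_sub_cancel, Matrix.smul_mulVec, Matrix.one_mulVec, smul_smul, pow_two]

end Pool.Agent.T2H84.SJ
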