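import Pool.Agent.T2H84.SJ.Stm

/-! # Assembly -/

set_option autoImplicit false

namespace Pool.Agent.T2H84.SJ

open MvPolynomial Matrix TensorProduct

universe u

theorem asm (hPR : P_PR.{u}) (hGPO : P_GPO.{u}) (hCIR : P_CIR.{u}) (hD2 : P_D2.{u}) (hCRT : P_CRT.{u})
    (hTRF : P_TRF.{u}) (hDEC : P_DEC.{u}) (hR3 : P_R3.{u}) (hEUL : P_EUL.{u}) (hPA : P_PA.{u}) (hCV : P_CV.{u})
    (hF1 : P_F1.{u}) (hGEN : P_GEN.{u}) (hSTA : P_STA.{u}) (hS3 : P_S3.{u}) (hLOC : P_LOC.{u}) (hRAD : P_RAD.{u})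
    (hFIN : P_FIN.{u}) (k : Type u) [Field k] [CharZero k] (m : ℕ) (al : Fin m → Fin 4 → k)
    (h1 : ∀ i, al i ≠ 0) (h2 : ∀ i j, i ≠ j → LinearIndependent k ![al i, al j])
    (h3 : Submodule.span k (Set.range al) = ⊤) (h4 : ∀ S : Finset (Fin m), IsCircuit al S → 4 ≤ S.card) :
    delta (Jac (∏ i, lin (al i))) = ⊥ := by
  have hA : Arr al := hCIR k m al h1 h2 h3 h4
  have hG : GP Finset.univ (ll al) := hGPO hPR k m al hA
  have hm : 0 < m := by
    rcases Nat.eq_zero_or_pos m with rfl | h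
    · exfalso
      have he : Set.range al = ∅ := Set.range_eq_empty al
      rw [he, Submodule.span_empty] at h3
      exact bot_ne_top h3
    · exact h
  have hsyz : Syz (fv al) := by
    refine hRAD k m al hA (hPA hEUL k m al hm) ?_ ?_
    · exact hLOC (hR3 (hCRT hD2) (hDEC hD2)) hTRF hEUL k m al hA hG
    · obtain ⟨la, mu, h5, h6, h7⟩ := hGEN k m al hA
      exact ⟨la, mu, hS3 hPR hCV hSTA (hF1 (hDEC hD2) hEUL) k m al hA hG la mu h5 h6 h7⟩
  have hJ : Jac (∏ i, lin (al i)) = Ideal.span (Set.range (fv al)) := by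
    unfold Jac
    congr 2
    ext j
    rw [hEUL.2 k m al j]
  rw [hJ]
  refine hFIN _ 4 (fv al) ?_ hsyz
  have h2u : IsUnit (2 : k) := isUnit_iff_ne_zero.2 two_ne_zero
  have := h2u.map (algebraMap k (MvPolynomial (Fin 4) k))
  rw [map_ofNat] at this
  exact this

end Pool.Agent.T2H84.SJ
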