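import Mathlib

/-! # Syzygetic Jacobian ideals of arrangements of rank 4 and girth at least 4: definitions and packages -/

set_option autoImplicit false

namespace Pool.Agent.T2H84.SJ

open MvPolynomial Matrix TensorProduct

universe u

/-! ## The objects of the problem -/

section defs

variable {k : Type u} [Field k] {A : Type u} [CommRing A]

/-- the linear form with coefficient vector `b` -/
noncomputable def lin (b : Fin 4 → k) : MvPolynomial (Fin 4) k := ∑ j, C (b j) * X j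

/-- the Jacobian ideal: generated by the four partial derivatives -/
noncomputable def Jac (f : MvPolynomial (Fin 4) k) : Ideal (MvPolynomial (Fin 4) k) :=
  Ideal.span (Set.range fun j => pderiv j f)

/-- circuits: inclusion-minimal index sets of linearly dependent forms -/
def IsCircuit {m : ℕ} (al : Fin m → Fin 4 → k) (S : Finset (Fin m)) : Prop :=
  ¬ LinearIndependent k (fun i : S => al i) ∧
    ∀ T : Finset (Fin m), T ⊂ S → LinearIndependent k (fun i : T => al i)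

/-- the relations `x ⊗ y = y ⊗ x` -/
def symRel (J : Ideal A) : Submodule A (J ⊗[A] J) :=
  Submodule.span A {t | ∃ x y : J, t = x ⊗ₜ[A] y - y ⊗ₜ[A] x}

/-- multiplication `J ⊗ J → A` -/
noncomputable def mulMap (J : Ideal A) : J ⊗[A] J →ₗ[A] A :=
  LinearMap.mul' A A ∘ₗ TensorProduct.map (Submodule.subtype J) (Submodule.subtype J)

/-- the natural map `Sym² J → A` (with image `J²`), `Sym² J` being `J ⊗ J` modulo `x ⊗ y - y ⊗ x` -/
noncomputable def toSq (J : Ideal A) : ((J ⊗[A] J) ⧸ symRel J) →ₗ[A] A :=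
  (symRel J).liftQ (mulMap J) (by
    rw [symRel, Submodule.span_le]
    rintro _ ⟨x, y, rfl⟩
    simp [mulMap, mul_comm])

/-- `δ(J)`, the kernel of `Sym² J → J²` -/
noncomputable def delta (J : Ideal A) : Submodule A ((J ⊗[A] J) ⧸ symRel J) := LinearMap.ker (toSq J)

/-! ## Auxiliary notions -/

/-- `s` is a Koszul boundary: `s = B f` with `B` alternating -/
def InB {n : ℕ} (f s : Fin n → A) : Prop :=
  ∃ B : Matrix (Fin n) (Fin n) A, (∀ i, B i i = 0) ∧ (∀ i j, B j i = - B i j) ∧ B *ᵥ f = s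

/-- quadratic syzygies of `f` are Koszul -/
def Syz {n : ℕ} (f : Fin n → A) : Prop :=
  ∀ a : Matrix (Fin n) (Fin n) A, (∀ i j, a j i = a i j) → ∑ i, f i * (a *ᵥ f) i = 0 → InB f (a *ᵥ f)

/-- `∑_{i ∈ S} (∏_{j ∈ S, j ≠ i} l_j) a_i` -/
noncomputable def hv [Algebra k A] {d m : ℕ} (S : Finset (Fin m)) (a : Fin m → Fin d → k) (l : Fin m → A) :
    Fin d → A :=
  fun p => ∑ i ∈ S, (∏ j ∈ S.erase i, l j) * algebraMap k A (a i p)

/-- the elements `l i`, `i ∈ S`, are in general position up to codimension 2 -/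
structure GP {m : ℕ} (S : Finset (Fin m)) (l : Fin m → A) : Prop where
  ne : ∀ i ∈ S, l i ≠ 0
  p1 : ∀ i ∈ S, (Ideal.span {l i}).IsPrime
  n1 : ∀ i ∈ S, ∀ j ∈ S, i ≠ j → l j ∉ Ideal.span {l i}
  p2 : ∀ i ∈ S, ∀ j ∈ S, i ≠ j → (Ideal.span {l i, l j}).IsPrime
  n2 : ∀ i ∈ S, ∀ j ∈ S, ∀ t ∈ S, i ≠ j → t ≠ i → t ≠ j → l t ∉ Ideal.span {l i, l j}

/-- arrangement of rank 4, any three forms independent -/
structure Arr {m : ℕ} (al : Fin m → Fin 4 → k) : Prop where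
  i1 : ∀ i, al i ≠ 0
  i2 : ∀ i j, i ≠ j → LinearIndependent k ![al i, al j]
  i3 : ∀ i j t, i ≠ j → t ≠ i → t ≠ j → LinearIndependent k ![al i, al j, al t]
  sp : Submodule.span k (Set.range al) = ⊤

/-- the forms of the arrangement -/
noncomputable def ll {m : ℕ} (al : Fin m → Fin 4 → k) : Fin m → MvPolynomial (Fin 4) k := fun i => lin (al i)

/-- the gradient of the product of the forms -/
noncomputable def fv {m : ℕ} (al : Fin m → Fin 4 → k) : Fin 4 → MvPolynomial (Fin 4) k :=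
  hv Finset.univ al (ll al)

/-- the 2-vectors `C_l = ∑_{i ≠ l} y_{il} (α_i ∧ α_l)` -/
noncomputable def Cv {m : ℕ} (al : Fin m → Fin 4 → k) (l : Fin m) :
    Matrix (Fin 4) (Fin 4) (MvPolynomial (Fin 4) k) :=
  fun p q => ∑ i ∈ Finset.univ.erase l, (∏ j ∈ (Finset.univ.erase l).erase i, ll al j) *
    C (al i p * al l q - al i q * al l p)

end defs

/-! ## Packages: commutative algebra -/

/-- PR. Linear ideals are prime. Proof: choose a linear idempotent `T` of `k^4` with kernel `U` (complement of `U`);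
`φ = aeval (fun j => lin (T e_j))` satisfies `φ (lin b) = lin (T b)`, `φ p - p ∈ I_U` for all `p` (induction on `p`; for `X_j = lin e_j`
it is `lin (T e_j - e_j)`, and `T e_j - e_j ∈ ker T = U`); `φ` kills `I_U`: so `I_U = ker φ` is prime (domain) and
`lin b ∈ I_U` iff `lin (T b) = 0` iff `T b = 0`. -/
def P_PR : Prop := ∀ (k : Type u) [Field k] (U : Submodule k (Fin 4 → k)),
  (Ideal.span (lin '' (U : Set (Fin 4 → k)))).IsPrime ∧
    ∀ b : Fin 4 → k, lin b ∈ Ideal.span (lin '' (U : Set (Fin 4 → k))) ↔ b ∈ U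

/-- GPO (from PR). The forms are in general position: `Ideal.span {l_i, l_j} = Ideal.span (lin '' span {α_i, α_j})`, and `α_t` is not in the
span of `α_i, α_j`. -/
def P_GPO : Prop := P_PR.{u} → ∀ (k : Type u) [Field k] (m : ℕ) (al : Fin m → Fin 4 → k), Arr al →
  GP Finset.univ (ll al)

/-- CIR. From circuits to `Arr`: three distinct dependent forms would contain a minimal dependent set, a circuit with at
most three elements. -/
def P_CIR : Prop := ∀ (k : Type u) [Field k] (m : ℕ) (al : Fin m → Fin 4 → k), (∀ i, al i ≠ 0) →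
  (∀ i j, i ≠ j → LinearIndependent k ![al i, al j]) → Submodule.span k (Set.range al) = ⊤ →
  (∀ S : Finset (Fin m), IsCircuit al S → 4 ≤ S.card) → Arr al

/-- D2. Proof: induction on `T`. `w = a l_i + b ∏_T`; for a new `j`: `b ∏_T ∈ (l_i, l_j)`, prime, no `l_t` (`t ∈ T`) in it, so
`b ∈ (l_i, l_j)`. -/
def P_D2 : Prop := ∀ (A : Type u) [CommRing A] (m : ℕ) (l : Fin m → A) (i : Fin m) (T : Finset (Fin m)), i ∉ T →
  (∀ t ∈ T, (Ideal.span {l i, l t}).IsPrime) →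
  (∀ t ∈ T, ∀ j ∈ T, j ≠ t → l j ∉ Ideal.span {l i, l t}) →
  ∀ w : A, (∀ t ∈ T, w ∈ Ideal.span {l i, l t}) → w ∈ Ideal.span {l i, ∏ t ∈ T, l t}

/-- CRT (from D2). Proof: induction on the set of indices `S' ⊆ S` already treated. Given `h₀` for `S'` and `j ∉ S'`: for `i ∈ S'`
`h₀ - c_j = (h₀ - c_i) + (c_i - c_j) ∈ (l_i, l_j)`, so by D2 `h₀ - c_j = a l_j + b ∏_{S'} l_i`; take `h₀ - b ∏_{S'} l_i`. -/
def P_CRT : Prop := P_D2.{u} → ∀ (A : Type u) [CommRing A] (m : ℕ) (l : Fin m → A) (S : Finset (Fin m)), GP S l →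
  ∀ c : Fin m → A, (∀ i ∈ S, ∀ j ∈ S, i ≠ j → c i - c j ∈ Ideal.span {l i, l j}) →
    ∃ h : A, ∀ i ∈ S, c i - h ∈ Ideal.span {l i}

/-- TRF. Transfer lemma. Proof: `a' = Mᵀ a M` is symmetric with `h·a'h = f·af = 0`: `Mᵀ a f = B' h`, `B'` alternating. `E = v - M N`,
`E f = 0`; `v a f = Nᵀ Mᵀ a f + Eᵀ a f`; `v Nᵀ Mᵀ a f = v Nᵀ B' h = Nᵀ B' N f`; `Eᵀ a f = (Eᵀ a - a E) f`. So
`v² a f = (Nᵀ B' N + v (Eᵀ a - a E)) f`; alternating: diagonal entries of `Nᵀ B' N` vanish as `B'` is alternating. -/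
def P_TRF : Prop := ∀ (A : Type u) [CommRing A] (n d : ℕ) (h : Fin n → A) (f : Fin d → A)
  (M : Matrix (Fin d) (Fin n) A) (N : Matrix (Fin n) (Fin d) A) (v : A), M *ᵥ h = f → N *ᵥ f = v • h → Syz h →
  ∀ a : Matrix (Fin d) (Fin d) A, (∀ i j, a j i = a i j) → ∑ i, f i * (a *ᵥ f) i = 0 → InB f (v ^ 2 • (a *ᵥ f))

/-- DEC (from D2). Write `g_i = ∏_{j ∈ S, j ≠ i} l_j`, `g = ∏_S l_i`, `h = hv S a l ≡ g_i a_i` mod `l_i`. Proof: mod `l_i`: `g_i a_i ∧ w = 0`,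
`g_i ∉ (l_i)`, so `a_i ∧ w = 0`, so `w = t_i a_i` mod `l_i` (`t_i = w_p / a_i(p)` for a `p` with `a_i(p) ≠ 0`). Mod `(l_i, l_j)`:
`t_i a_i = t_j a_j`, `a_i ∧ a_j` has an invertible entry, so `t_i ∈ (l_i, l_j)`; D2: `t_i = c_i g_i` mod `l_i`. So
`w - ∑ c_j g_j a_j` has entries divisible by all `l_i` (`g_j ∈ (l_i)` for `j ≠ i`), hence by `g` (induction; `(l_i)` prime,
`l_j ∉ (l_i)`, domain). -/
def P_DEC : Prop := P_D2.{u} → ∀ (k A : Type u) [Field k] [CommRing A] [IsDomain A] [Algebra k A] (d m : ℕ)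
  (S : Finset (Fin m)) (a : Fin m → Fin d → k) (l : Fin m → A), GP S l → (∀ i ∈ S, a i ≠ 0) →
  (∀ i ∈ S, ∀ j ∈ S, i ≠ j → ∃ p q, a i p * a j q - a i q * a j p ≠ 0) → ∀ w : Fin d → A,
  (∀ i ∈ S, ∀ p q, hv S a l p * w q - hv S a l q * w p ∈ Ideal.span {l i}) →
  ∃ (c : Fin m → A) (w' : Fin d → A),
    ∀ p, w p = ∑ i ∈ S, c i * (∏ j ∈ S.erase i, l j) * algebraMap k A (a i p) + (∏ i ∈ S, l i) * w' p

/-- R3 (from CRT, DEC). Rank 3. Write `g_i, g, h` as in DEC, `n = |S|`, `y·h = ∑ g_i l_i = n g`. Let `s = α h` (`α` symmetric,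
`h·s = 0`). `n g s = h × (s × y)` (`s (h·y) - y (h·s)`). DEC for `w = s × y` (entries of `h × w` are in `(g)`):
`w = ∑ c_i g_i a_i + g w'`. So, with `g_i g_j = g g_ij` and cancelling `g`: `n s = ∑_{i<j} g_ij (c_j - c_i) a_i × a_j + h × w'`. `h` and all
`g_i'j'` with `{i',j'} ≠ {i,j}` are in `(l_i, l_j)`, `g_ij` is not; so `c_j - c_i ∈ (l_i, l_j)`. CRT: `c_i = h₀ + l_i d_i`, so
`w = h₀ h + g (∑ d_i a_i + w')`, `n s = h × (∑ d_i a_i + w')`; and `h × w = B h` with the alternating matrix `B` of the cross product. -/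
def P_R3 : Prop := (∀ (A : Type u) [CommRing A] (m : ℕ) (l : Fin m → A) (S : Finset (Fin m)), GP S l →
  ∀ c : Fin m → A, (∀ i ∈ S, ∀ j ∈ S, i ≠ j → c i - c j ∈ Ideal.span {l i, l j}) →
    ∃ h : A, ∀ i ∈ S, c i - h ∈ Ideal.span {l i}) →
  (∀ (k A : Type u) [Field k] [CommRing A] [IsDomain A] [Algebra k A] (d m : ℕ)
  (S : Finset (Fin m)) (a : Fin m → Fin d → k) (l : Fin m → A), GP S l → (∀ i ∈ S, a i ≠ 0) →
  (∀ i ∈ S, ∀ j ∈ S, i ≠ j → ∃ p q, a i p * a j q - a i q * a j p ≠ 0) → ∀ w : Fin d → A,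
  (∀ i ∈ S, ∀ p q, hv S a l p * w q - hv S a l q * w p ∈ Ideal.span {l i}) →
  ∃ (c : Fin m → A) (w' : Fin d → A),
    ∀ p, w p = ∑ i ∈ S, c i * (∏ j ∈ S.erase i, l j) * algebraMap k A (a i p) + (∏ i ∈ S, l i) * w' p) →
  ∀ (k A : Type u) [Field k] [CharZero k] [CommRing A] [IsDomain A] [Algebra k A] (m : ℕ)
  (S : Finset (Fin m)) (a : Fin m → Fin 3 → k) (y : Fin 3 → A) (l : Fin m → A), S.Nonempty → GP S l →
  (∀ i ∈ S, a i ≠ 0) → (∀ i ∈ S, ∀ j ∈ S, i ≠ j → ∃ p q, a i p * a j q - a i q * a j p ≠ 0) →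
  (∀ i ∈ S, l i = ∑ p, algebraMap k A (a i p) * y p) → Syz (hv S a l)

/-- EUL. Derivative of the product and Euler's formula (`pderiv j (lin b) = C (b j)`; product rule, e.g. `Derivation.leibniz_prod` or
induction). -/
def P_EUL : Prop :=
  (∀ (k A : Type u) [Field k] [CommRing A] [Algebra k A] (d m : ℕ) (S : Finset (Fin m)) (a : Fin m → Fin d → k)
    (y : Fin d → A) (l : Fin m → A), (∀ i ∈ S, l i = ∑ p, algebraMap k A (a i p) * y p) →
    ∑ p, y p * hv S a l p = (S.card : A) * ∏ i ∈ S, l i) ∧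
  (∀ (k : Type u) [Field k] (m : ℕ) (al : Fin m → Fin 4 → k) (j : Fin 4), pderiv j (∏ i, lin (al i)) = fv al j)

/-- PA (from EUL). `f Z₁ ⊆ B₁`: `B = (s xᵀ - x sᵀ)/m`. -/
def P_PA : Prop := P_EUL.{u} → ∀ (k : Type u) [Field k] [CharZero k] (m : ℕ) (al : Fin m → Fin 4 → k), 0 < m →
  ∀ s : Fin 4 → MvPolynomial (Fin 4) k, ∑ i, fv al i * s i = 0 → InB (fv al) ((∏ i, ll al i) • s)

/-- CV. Facts on the `C_l` (`f = ∏ l_i`, `y_i = f / l_i`; `(u ∧ v)_pq = u_p v_q - u_q v_p`). (1) `l_l C_l = ∑_{i≠l} y_i α_i ∧ α_l = fv ∧ α_l`.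
(2) `l_l (fv ∧ C_l) = fv ∧ fv ∧ α_l = 0`, cancel `l_l ≠ 0`. (3) antisymmetry of `y_il α_i ∧ α_l` in `(i,l)`.
(4) `∑_p x_p C_l p q = ∑_{i≠l} y_il (l_i α_l q - l_l α_i q) = (m-1) y_l α_l q - (fv q - y_l α_l q)`. -/
def P_CV : Prop := ∀ (k : Type u) [Field k] (m : ℕ) (al : Fin m → Fin 4 → k), (∀ i, ll al i ≠ 0) →
  (∀ l p q, ll al l * Cv al l p q = fv al p * C (al l q) - fv al q * C (al l p)) ∧
  (∀ l p q r, fv al p * Cv al l q r + fv al q * Cv al l r p + fv al r * Cv al l p q = 0) ∧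
  (∀ p q, ∑ l, Cv al l p q = 0) ∧
  (∀ l q, ∑ p, X p * Cv al l p q = (m : MvPolynomial (Fin 4) k) * (∏ j ∈ Finset.univ.erase l, ll al j) * C (al l q) -
    fv al q) ∧
  (∀ l p q, Cv al l q p = - Cv al l p q)

/-- F1 (from DEC, EUL). Proof: `w_q = ∑_p x_p C_pq`. Contracting the hypothesis with `x`: `m f C_pq = fv_p w_q - fv_q w_p`. DEC:
`w = ∑ c_l y_l α_l + f w'`; the `α_l` span `k^4`, so `w' = ∑ w'_l α_l` with `w'_l` polynomials, `f w'_l α_l = (w'_l l_l) y_l α_l`: so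
`w = ∑ c_l y_l α_l` with new `c_l`. Then `m f C = ∑_{i,l} y_i y_l c_l α_i ∧ α_l = f ∑ c_l C_l` (`y_i y_l = f y_il`), cancel `f`. -/
def P_F1 : Prop := (∀ (k A : Type u) [Field k] [CommRing A] [IsDomain A] [Algebra k A] (d m : ℕ)
  (S : Finset (Fin m)) (a : Fin m → Fin d → k) (l : Fin m → A), GP S l → (∀ i ∈ S, a i ≠ 0) →
  (∀ i ∈ S, ∀ j ∈ S, i ≠ j → ∃ p q, a i p * a j q - a i q * a j p ≠ 0) → ∀ w : Fin d → A,
  (∀ i ∈ S, ∀ p q, hv S a l p * w q - hv S a l q * w p ∈ Ideal.span {l i}) →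
  ∃ (c : Fin m → A) (w' : Fin d → A),
    ∀ p, w p = ∑ i ∈ S, c i * (∏ j ∈ S.erase i, l j) * algebraMap k A (a i p) + (∏ i ∈ S, l i) * w' p) → P_EUL.{u} →
  ∀ (k : Type u) [Field k] (m : ℕ) (al : Fin m → Fin 4 → k), Arr al → GP Finset.univ (ll al) →
  ∀ D : Matrix (Fin 4) (Fin 4) (MvPolynomial (Fin 4) k), (∀ i, D i i = 0) → (∀ i j, D j i = - D i j) →
  (∀ p q r, fv al p * D q r + fv al q * D r p + fv al r * D p q = 0) →
  ∃ c : Fin m → MvPolynomial (Fin 4) k, ∀ p q, (m : MvPolynomial (Fin 4) k) * D p q = ∑ l, c l * Cv al l p q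

/-- GEN. Generic vectors: `la` outside of the finitely many spans of `{α_i, α_j}`, then `mu` outside of the spans of `{la, α_i, α_j}`
(`Subspace.biUnion_ne_univ_of_top_notMem` or similar; `k` is infinite). -/
def P_GEN : Prop := ∀ (k : Type u) [Field k] [CharZero k] (m : ℕ) (al : Fin m → Fin 4 → k), Arr al →
  ∃ la mu : Fin 4 → k, LinearIndependent k ![la, mu] ∧ (∀ i, LinearIndependent k ![la, mu, al i]) ∧
    ∀ i j, i ≠ j → LinearIndependent k ![la, mu, al i, al j]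

/-- STA. The star operator in dimension 4: `D fv = 0` iff `fv ∧ *D = 0`. Take `E 0 1 = D 2 3`, `E 0 2 = - D 1 3`, `E 0 3 = D 1 2`,
`E 1 2 = D 0 3`, `E 1 3 = - D 0 2`, `E 2 3 = D 0 1`, alternating. -/
def P_STA : Prop := ∀ (A : Type u) [CommRing A], ∃ st : Matrix (Fin 4) (Fin 4) A → Matrix (Fin 4) (Fin 4) A,
  (∀ D D' : Matrix (Fin 4) (Fin 4) A, st (D + D') = st D + st D') ∧
  (∀ (c : A) (D : Matrix (Fin 4) (Fin 4) A), st (c • D) = c • st D) ∧
  ∀ D : Matrix (Fin 4) (Fin 4) A, (∀ i, D i i = 0) → (∀ i j, D j i = - D i j) →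
    (∀ i, st D i i = 0) ∧ (∀ i j, st D j i = - st D i j) ∧ st (st D) = D ∧
    ∀ f : Fin 4 → A, D *ᵥ f = 0 ↔ ∀ p q r, f p * st D q r + f q * st D r p + f r * st D p q = 0

/-- S3 (from PR, CV, F1, STA). Write `L = lin la`, `M = lin mu`. `L s = B fv`, `M s = B' fv`; `D = M B - L B'` is alternating with
`D fv = 0`; by STA and F1 `m *D = ∑ c_l C_l`. Mod `(L, M)`: `∑ c_l C_l = 0`; contract with `x` (CV 4), `d_l = m c_l - ∑ c`:
`∑_l d_l y_l α_l = 0` mod `(L, M)`. Mod `(L, M, l_i)` (prime by PR): `y_l = 0` for `l ≠ i`, `y_i` is not in it, so `d_i` is in it. So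
`d_i = l_i e_i` mod `(L, M)`, `f ∑ e_i α_i = 0` mod `(L, M)`, `∑ e_i α_i = L p + M q`; the `α_i` span `k^4`: correct `e_i` so that
`∑ e_i α_i = 0`. Then `m ∑ c_l C_l = (∑ c) (∑ C_l) + fv ∧ ∑ e_l α_l + L X + M Y = L X + M Y` (CV 1, 3), `X, Y` in the span of the `C_l`. Apply
`*`: `m² (M B - L B') = L X' + M Y'`, `X' fv = Y' fv = 0` (CV 2, STA), `L` divides `M (m² B - Y')`, so `m² B - Y' = L B''`, `B''` alternating,
`m² s = B'' fv` (cancel `L`). -/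
def P_S3 : Prop := P_PR.{u} → P_CV.{u} → P_STA.{u} →
  (∀ (k : Type u) [Field k] (m : ℕ) (al : Fin m → Fin 4 → k), Arr al → GP Finset.univ (ll al) →
  ∀ D : Matrix (Fin 4) (Fin 4) (MvPolynomial (Fin 4) k), (∀ i, D i i = 0) → (∀ i j, D j i = - D i j) →
  (∀ p q r, fv al p * D q r + fv al q * D r p + fv al r * D p q = 0) →
  ∃ c : Fin m → MvPolynomial (Fin 4) k, ∀ p q, (m : MvPolynomial (Fin 4) k) * D p q = ∑ l, c l * Cv al l p q) →
  ∀ (k : Type u) [Field k] [CharZero k] (m : ℕ) (al : Fin m → Fin 4 → k), Arr al → GP Finset.univ (ll al) →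
  ∀ la mu : Fin 4 → k, LinearIndependent k ![la, mu] → (∀ i, LinearIndependent k ![la, mu, al i]) →
    (∀ i j, i ≠ j → LinearIndependent k ![la, mu, al i, al j]) →
  ∀ s : Fin 4 → MvPolynomial (Fin 4) k, InB (fv al) (lin la • s) → InB (fv al) (lin mu • s) → InB (fv al) s

/-- LOC (from R3, TRF, EUL). `S` nonempty, not spanning; `n = |S|`, `u = ∏_{i ∉ S} l_i`. Choose a 3-dimensional subspace containing `α_i`,
`i ∈ S`, with basis `β_1, β_2, β_3`; `Y` = 4×3 matrix of the `β`, `α_i = Y a_i`, `y_p = lin β_p`; `κ = hv Sᶜ al (ll al)`, `g = ∏_S l_i`,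
`h = hv S a l`, `y·h = n g`. `fv = u Y h + g κ = M h`, `M = u Y + (1/n) κ yᵀ`. With a left inverse `Y⁺` of `Y` (over `k`):
`N = u Y⁺ - (1/m) Y⁺ κ xᵀ`, `N fv = u² h` (`x·fv = m u g`). R3 (`a_i ∧ a_j ≠ 0` since `Y` is injective; `A = MvPolynomial (Fin 4) k`) and TRF
with `v = u²`. -/
def P_LOC : Prop :=
  (∀ (k A : Type u) [Field k] [CharZero k] [CommRing A] [IsDomain A] [Algebra k A] (m : ℕ)
  (S : Finset (Fin m)) (a : Fin m → Fin 3 → k) (y : Fin 3 → A) (l : Fin m → A), S.Nonempty → GP S l →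
  (∀ i ∈ S, a i ≠ 0) → (∀ i ∈ S, ∀ j ∈ S, i ≠ j → ∃ p q, a i p * a j q - a i q * a j p ≠ 0) →
  (∀ i ∈ S, l i = ∑ p, algebraMap k A (a i p) * y p) → Syz (hv S a l)) → P_TRF.{u} → P_EUL.{u} →
  ∀ (k : Type u) [Field k] [CharZero k] (m : ℕ) (al : Fin m → Fin 4 → k), Arr al → GP Finset.univ (ll al) →
  ∀ S : Finset (Fin m), S.Nonempty → Submodule.span k (al '' (S : Set (Fin m))) ≠ ⊤ →
  ∀ a : Matrix (Fin 4) (Fin 4) (MvPolynomial (Fin 4) k), (∀ i j, a j i = a i j) →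
    ∑ i, fv al i * (a *ᵥ fv al) i = 0 → InB (fv al) (((∏ i ∈ Sᶜ, ll al i) ^ 4) • (a *ᵥ fv al))

/-- RAD. Final argument. `I = {r | r (a fv) ∈ B₁}` is an ideal. A prime `P ⊇ I` contains all `lin b`: let `S = {i | l_i ∈ P}`. If
the `α_i`, `i ∈ S`, span `k^4`, clear. `S` empty: contradicts PA (`f ∈ I ⊆ P`). Otherwise LOC: `u⁴ ∈ I ⊆ P`, contradiction. So `L = lin la`
and `M = lin mu` have powers `L^a`, `M^b` in `I` (radical = intersection of primes). By S3 (applied to `s' = r (a fv)`): `L r ∈ I` and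
`M r ∈ I` imply `r ∈ I`. Downward induction on `i + j`: `L^i M^j ∈ I` for all `i, j`, so `1 ∈ I`. -/
def P_RAD : Prop := ∀ (k : Type u) [Field k] [CharZero k] (m : ℕ) (al : Fin m → Fin 4 → k), Arr al →
  (∀ s : Fin 4 → MvPolynomial (Fin 4) k, ∑ i, fv al i * s i = 0 → InB (fv al) ((∏ i, ll al i) • s)) →
  (∀ S : Finset (Fin m), S.Nonempty → Submodule.span k (al '' (S : Set (Fin m))) ≠ ⊤ →
    ∀ a : Matrix (Fin 4) (Fin 4) (MvPolynomial (Fin 4) k), (∀ i j, a j i = a i j) →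
    ∑ i, fv al i * (a *ᵥ fv al) i = 0 → InB (fv al) (((∏ i ∈ Sᶜ, ll al i) ^ 4) • (a *ᵥ fv al))) →
  (∃ la mu : Fin 4 → k, ∀ s : Fin 4 → MvPolynomial (Fin 4) k,
    InB (fv al) (lin la • s) → InB (fv al) (lin mu • s) → InB (fv al) s) → Syz (fv al)

/-- FIN. From `Syz` to `δ = 0`. Proof: a class in `δ(J)` is represented by `t = ∑ a_jk f_j ⊗ f_k`, modulo `symRel` with `a` symmetric
(2 is invertible), `∑ a_jk f_j f_k = 0`. So `a f = B f`, `∑_jk a_jk f_j ⊗ f_k = ∑_j f_j ⊗ (a f)_j = ∑_jk B_jk f_j ⊗ f_k =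
∑_{j<k} B_jk (f_j ⊗ f_k - f_k ⊗ f_j)`. -/
def P_FIN : Prop := ∀ (A : Type u) [CommRing A] (n : ℕ) (f : Fin n → A), IsUnit (2 : A) → Syz f →
  delta (Ideal.span (Set.range f)) = ⊥

/-- IMG. Sanity: the image of `Sym² J → A` is `J²`. -/
def P_IMG : Prop := ∀ (A : Type u) [CommRing A] (J : Ideal A), LinearMap.range (toSq J) = J ^ 2

end Pool.Agent.T2H84.SJ
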