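import Pool.Agent.T2H84.SJ.Stm

set_option autoImplicit false

namespace Pool.Agent.T2H84.SJ

open MvPolynomial Matrix TensorProduct

universe u

theorem T_IMG : P_IMG.{u} := by
  intro A _ J
  have hr : LinearMap.range (toSq J) = LinearMap.range (mulMap J) := by
    unfold toSq
    exact Submodule.range_liftQ _ _ _
  rw [hr]
  apply le_antisymm
  · rintro _ ⟨t, rfl⟩
    induction t using TensorProduct.induction_on with
    | zero => simp
    | tmul x y =>
      have : mulMap J (x ⊗ₜ[A] y) = (x : A) * (y : A) := by simp [mulMap]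
      rw [this, pow_two]
      exact Ideal.mul_mem_mul x.2 y.2
    | add x y hx hy => rw [map_add]; exact add_mem hx hy
  · rw [pow_two, Ideal.mul_le]
    intro r hr s hs
    exact ⟨(⟨r, hr⟩ : J) ⊗ₜ[A] (⟨s, hs⟩ : J), by simp [mulMap]⟩

end Pool.Agent.T2H84.SJ
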