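import Pool.Agent.T2H84.SJ.Stm

set_option autoImplicit false

namespace Pool.Agent.T2H84.SJ

open MvPolynomial Matrix TensorProduct

universe u

theorem S3_lin_add {k : Type u} [Field k] (a b : Fin 4 → k) : lin (a + b) = lin a + lin b := by
  simp only [lin, Pi.add_apply, map_add, add_mul, Finset.sum_add_distrib]

theorem S3_lin_smul {k : Type u} [Field k] (c : k) (b : Fin 4 → k) : lin (c • b) = C c * lin b := by
  simp only [lin, Pi.smul_apply, smul_eq_mul, map_mul, Finset.mul_sum, mul_assoc]

theorem S3_notMem1 {k : Type u} [Field k] {a b : Fin 4 → k} (h : LinearIndependent k ![a, b]) :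
    b ∉ Submodule.span k {a} := by
  rw [Submodule.mem_span_singleton]
  rintro ⟨x, hx⟩
  have h1 := Fintype.linearIndependent_iff.mp h ![x, -1] (by
    rw [Fin.sum_univ_two]
    simp only [Matrix.cons_val_zero, Matrix.cons_val_one]
    rw [← hx]
    simp) 1
  simp at h1

theorem S3_notMem2 {k : Type u} [Field k] {a b c : Fin 4 → k} (h : LinearIndependent k ![a, b, c]) :
    c ∉ Submodule.span k {a, b} := by
  rw [Submodule.mem_span_pair]
  rintro ⟨x, y, hx⟩
  have h1 := Fintype.linearIndependent_iff.mp h ![x, y, -1] (by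
    rw [Fin.sum_univ_three]
    simp only [Matrix.cons_val_zero, Matrix.cons_val_one, Matrix.cons_val]
    rw [← hx, neg_one_smul, add_neg_cancel]) 2
  simp at h1

theorem S3_notMem3 {k : Type u} [Field k] {a b c d : Fin 4 → k}
    (h : LinearIndependent k ![a, b, c, d]) : d ∉ Submodule.span k {a, b, c} := by
  rw [Submodule.mem_span_triple]
  rintro ⟨x, y, z, hx⟩
  have h1 := Fintype.linearIndependent_iff.mp h ![x, y, z, -1] (by
    rw [Fin.sum_univ_four]
    simp only [Matrix.cons_val_zero, Matrix.cons_val_one, Matrix.cons_val]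
    rw [← hx, neg_one_smul, add_neg_cancel]) 3
  simp at h1

/-- elements of the ideal of two linear forms -/
theorem S3_mem2 {k : Type u} [Field k] (a b : Fin 4 → k) (p : MvPolynomial (Fin 4) k)
    (hp : p ∈ Ideal.span (lin '' (Submodule.span k {a, b} : Set (Fin 4 → k)))) :
    ∃ x y : MvPolynomial (Fin 4) k, p = lin a * x + lin b * y := by
  have h1 : Ideal.span (lin '' (Submodule.span k {a, b} : Set (Fin 4 → k))) ≤
      Ideal.span {lin a, lin b} := by
    rw [Ideal.span_le]
    rintro _ ⟨u, hu, rfl⟩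
    obtain ⟨x, y, rfl⟩ := Submodule.mem_span_pair.mp hu
    rw [SetLike.mem_coe, Ideal.mem_span_pair]
    exact ⟨C x, C y, by rw [S3_lin_add, S3_lin_smul, S3_lin_smul]⟩
  obtain ⟨x, y, h⟩ := Ideal.mem_span_pair.mp (h1 hp)
  exact ⟨x, y, by rw [← h]; ring⟩

theorem S3_mem1 {k : Type u} [Field k] (a : Fin 4 → k) (p : MvPolynomial (Fin 4) k)
    (hp : p ∈ Ideal.span (lin '' (Submodule.span k {a} : Set (Fin 4 → k)))) :
    ∃ x : MvPolynomial (Fin 4) k, p = lin a * x := by
  have h1 : Ideal.span (lin '' (Submodule.span k {a} : Set (Fin 4 → k))) ≤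
      Ideal.span {lin a} := by
    rw [Ideal.span_le]
    rintro _ ⟨u, hu, rfl⟩
    obtain ⟨x, rfl⟩ := Submodule.mem_span_singleton.mp hu
    rw [SetLike.mem_coe, Ideal.mem_span_singleton, S3_lin_smul]
    exact ⟨C x, by ring⟩
  obtain ⟨x, h⟩ := Ideal.mem_span_singleton.mp (h1 hp)
  exact ⟨x, h⟩

theorem S3_mem3 {k : Type u} [Field k] (a b c : Fin 4 → k) (p : MvPolynomial (Fin 4) k)
    (hp : p ∈ Ideal.span (lin '' (Submodule.span k {a, b, c} : Set (Fin 4 → k)))) :
    ∃ x y z : MvPolynomial (Fin 4) k, p = lin a * x + lin b * y + lin c * z := by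
  refine Submodule.span_induction (p := fun p _ => ∃ x y z : MvPolynomial (Fin 4) k,
    p = lin a * x + lin b * y + lin c * z) ?_ ?_ ?_ ?_ hp
  · rintro _ ⟨u, hu, rfl⟩
    obtain ⟨x, y, z, rfl⟩ := Submodule.mem_span_triple.mp hu
    refine ⟨C x, C y, C z, ?_⟩
    rw [S3_lin_add, S3_lin_add, S3_lin_smul, S3_lin_smul, S3_lin_smul]
    ring
  · exact ⟨0, 0, 0, by ring⟩
  · rintro p q - - ⟨x, y, z, h⟩ ⟨x', y', z', h'⟩
    exact ⟨x + x', y + y', z + z', by rw [h, h']; ring⟩
  · rintro r p - ⟨x, y, z, h⟩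
    exact ⟨r * x, r * y, r * z, by rw [smul_eq_mul, h]; ring⟩

theorem T_S3 : P_S3.{u} := by
  intro hPR hCV hST hF1 k _ _ m al hA hGP la mu h2 h3 h4 s hB hB'
  obtain ⟨c1, c2, c3, c4, c5⟩ := hCV k m al (fun i => (hGP.ne i (Finset.mem_univ _)))
  have c6 : ∀ l p, Cv al l p p = 0 := by
    intro l p
    simp only [Cv, sub_self, map_zero, mul_zero, Finset.sum_const_zero]
  obtain ⟨st, st_add, st_smul, st_main⟩ := hST (MvPolynomial (Fin 4) k)
  obtain ⟨B, B0, B1, B2⟩ := hB
  obtain ⟨B', B'0, B'1, B'2⟩ := hB'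
  set L := lin la with hL
  set M := lin mu with hM
  set f := fv al with hf
  set y : Fin m → MvPolynomial (Fin 4) k := fun l => ∏ j ∈ Finset.univ.erase l, ll al j with hy
  have hm : m ≠ 0 := by
    rintro rfl
    have h1 := hA.sp
    rw [Set.range_eq_empty, Submodule.span_empty] at h1
    exact bot_ne_top h1
  have hmA : (m : MvPolynomial (Fin 4) k) ≠ 0 := by exact_mod_cast hm
  have hfq : ∀ q, f q = ∑ l, y l * C (al l q) := by
    intro q
    rw [hf]
    rfl
  -- the matrix D
  have hD0 : ∀ i, (M • B - L • B') i i = 0 := by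
    intro i
    simp only [Matrix.sub_apply, Matrix.smul_apply, smul_eq_mul, B0, B'0, mul_zero, sub_zero]
  have hD1 : ∀ i j, (M • B - L • B') j i = - (M • B - L • B') i j := by
    intro i j
    simp only [Matrix.sub_apply, Matrix.smul_apply, smul_eq_mul]
    rw [B1 i j, B'1 i j]
    ring
  have hDf : (M • B - L • B') *ᵥ f = 0 := by
    rw [Matrix.sub_mulVec, Matrix.smul_mulVec, Matrix.smul_mulVec, B2, B'2, smul_smul, smul_smul,
      mul_comm M L, sub_self]
  obtain ⟨sD0, sD1, sDD, sDw⟩ := st_main _ hD0 hD1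
  obtain ⟨c, hc⟩ := hF1 k m al hA hGP _ sD0 sD1 ((sDw f).mp hDf)
  have hstD : st (M • B - L • B') = M • st B - L • st B' := by
    rw [sub_eq_add_neg, ← neg_smul, st_add, st_smul, st_smul, neg_smul, ← sub_eq_add_neg]
  -- the contraction
  set σ : MvPolynomial (Fin 4) k := ∑ l, c l with hσ
  set d : Fin m → MvPolynomial (Fin 4) k := fun l => (m : MvPolynomial (Fin 4) k) * c l - σ with hd
  have hsum : ∀ q, ∑ l, d l * y l * C (al l q) =
      (m : MvPolynomial (Fin 4) k) * ∑ p, X p * st (M • B - L • B') p q := by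
    intro q
    have h1 : (m : MvPolynomial (Fin 4) k) * ∑ p, X p * st (M • B - L • B') p q =
        ∑ l, c l * ∑ p, X p * Cv al l p q := by
      rw [Finset.mul_sum]
      have h2 : ∀ p, (m : MvPolynomial (Fin 4) k) * (X p * st (M • B - L • B') p q) =
          ∑ l, c l * (X p * Cv al l p q) := by
        intro p
        calc (m : MvPolynomial (Fin 4) k) * (X p * st (M • B - L • B') p q)
            = X p * ((m : MvPolynomial (Fin 4) k) * st (M • B - L • B') p q) := by ring
          _ = X p * ∑ l, c l * Cv al l p q := by rw [hc]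
          _ = _ := by rw [Finset.mul_sum]; exact Finset.sum_congr rfl fun l _ => by ring
      rw [Finset.sum_congr rfl fun p _ => h2 p, Finset.sum_comm]
      exact Finset.sum_congr rfl fun l _ => by rw [Finset.mul_sum]
    rw [h1]
    have h3 : ∀ l, c l * ∑ p, X p * Cv al l p q =
        c l * ((m : MvPolynomial (Fin 4) k) * y l * C (al l q)) - c l * f q := by
      intro l
      rw [c4, mul_sub]
    rw [Finset.sum_congr rfl fun l _ => h3 l, Finset.sum_sub_distrib, ← Finset.sum_mul, ← hσ,
      hfq q, Finset.mul_sum, ← Finset.sum_sub_distrib]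
    refine Finset.sum_congr rfl fun l _ => ?_
    rw [hd]
    ring
  -- the ideals
  set Q : Ideal (MvPolynomial (Fin 4) k) :=
    Ideal.span (lin '' (Submodule.span k {la, mu} : Set (Fin 4 → k))) with hQ
  have hQp : Q.IsPrime := (hPR k _).1
  have hLQ : L ∈ Q := ((hPR k (Submodule.span k {la, mu})).2 la).mpr
    (Submodule.subset_span (by simp))
  have hMQ : M ∈ Q := ((hPR k (Submodule.span k {la, mu})).2 mu).mpr
    (Submodule.subset_span (by simp))
  have hlQ : ∀ i, ll al i ∉ Q := fun i hi =>
    S3_notMem2 (h3 i) (((hPR k (Submodule.span k {la, mu})).2 (al i)).mp hi)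
  have hsumQ : ∀ q, ∑ l, d l * y l * C (al l q) ∈ Q := by
    intro q
    rw [hsum, hstD]
    refine Q.mul_mem_left _ (Ideal.sum_mem _ fun p _ => Q.mul_mem_left _ ?_)
    simp only [Matrix.sub_apply, Matrix.smul_apply, smul_eq_mul]
    exact Q.sub_mem (Q.mul_mem_right _ hMQ) (Q.mul_mem_right _ hLQ)
  have hdi : ∀ i, ∃ a b e : MvPolynomial (Fin 4) k, d i = L * a + M * b + ll al i * e := by
    intro i
    set R : Ideal (MvPolynomial (Fin 4) k) :=
      Ideal.span (lin '' (Submodule.span k {la, mu, al i} : Set (Fin 4 → k))) with hR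
    have hRp : R.IsPrime := (hPR k _).1
    have hliR : ll al i ∈ R := ((hPR k (Submodule.span k {la, mu, al i})).2 (al i)).mpr
      (Submodule.subset_span (by simp))
    have hljR : ∀ j, j ≠ i → ll al j ∉ R := fun j hj hjR =>
      S3_notMem3 (h4 i j hj.symm) (((hPR k (Submodule.span k {la, mu, al i})).2 (al j)).mp hjR)
    have hQR : Q ≤ R := by
      rw [hQ, hR]
      refine Ideal.span_mono (Set.image_mono ?_)
      refine Submodule.span_mono ?_
      intro v hv
      simp only [Set.mem_insert_iff, Set.mem_singleton_iff] at hv ⊢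
      tauto
    obtain ⟨q, hq⟩ : ∃ q, al i q ≠ 0 := by
      by_contra hcon
      push Not at hcon
      exact hA.i1 i (funext hcon)
    have h1 : d i * y i * C (al i q) ∈ R := by
      have h2 := hQR (hsumQ q)
      rw [← Finset.add_sum_erase _ _ (Finset.mem_univ i)] at h2
      refine (Ideal.add_mem_iff_left R ?_).mp h2
      refine Ideal.sum_mem _ fun l hl => ?_
      have hli : l ≠ i := Finset.ne_of_mem_erase hl
      refine R.mul_mem_right _ (R.mul_mem_left _ ?_)
      rw [hy]
      simp only
      rw [← Finset.mul_prod_erase (Finset.univ.erase l) (ll al)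
        (Finset.mem_erase.mpr ⟨hli.symm, Finset.mem_univ i⟩)]
      exact R.mul_mem_right _ hliR
    have h5 : d i * y i ∈ R := by
      rcases hRp.mem_or_mem h1 with h | h
      · exact h
      · exfalso
        refine hRp.ne_top (Ideal.eq_top_of_isUnit_mem R h ?_)
        exact (IsUnit.mk0 _ hq).map C
    have h6 : y i ∉ R := by
      intro h
      rw [hy] at h
      simp only at h
      obtain ⟨j, hj, hjR⟩ := (hRp.prod_mem_iff).mp h
      exact hljR j (Finset.ne_of_mem_erase hj) hjR
    have h7 : d i ∈ R := (hRp.mem_or_mem h5).resolve_right h6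
    obtain ⟨x, y', z, h⟩ := S3_mem3 la mu (al i) _ h7
    exact ⟨x, y', z, h⟩
  choose a b e he using hdi
  have hFl : ∀ l, ll al l * y l = ∏ i, ll al i := by
    intro l
    exact Finset.mul_prod_erase _ _ (Finset.mem_univ l)
  have hFQ : ∏ i, ll al i ∉ Q := by
    intro h
    obtain ⟨j, -, hj⟩ := (hQp.prod_mem_iff).mp h
    exact hlQ j hj
  have heQ : ∀ q, ∑ l, e l * C (al l q) ∈ Q := by
    intro q
    have h1 := hsumQ q
    have h5 : ∑ l, d l * y l * C (al l q) =
        (∏ i, ll al i) * (∑ l, e l * C (al l q)) + ∑ l, (L * a l + M * b l) * (y l * C (al l q)) := by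
      rw [Finset.mul_sum, ← Finset.sum_add_distrib]
      refine Finset.sum_congr rfl fun l _ => ?_
      rw [he l, ← hFl l]
      ring
    rw [h5] at h1
    have h6 : ∑ l, (L * a l + M * b l) * (y l * C (al l q)) ∈ Q :=
      Ideal.sum_mem _ fun l _ => Q.mul_mem_right _
        (Q.add_mem (Q.mul_mem_right _ hLQ) (Q.mul_mem_right _ hMQ))
    have h7 := (Ideal.add_mem_iff_left Q h6).mp h1
    exact (hQp.mem_or_mem h7).resolve_left hFQ
  have heQ' : ∀ q, ∃ x z : MvPolynomial (Fin 4) k, ∑ l, e l * C (al l q) = L * x + M * z :=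
    fun q => S3_mem2 la mu _ (heQ q)
  choose x z hxz using heQ'
  -- spanning
  have hspan : ∀ q : Fin 4, ∃ t : Fin m → k, ∑ l, t l • al l = Pi.single q 1 := by
    intro q
    have h1 : (Pi.single q 1 : Fin 4 → k) ∈ Submodule.span k (Set.range al) := by
      rw [hA.sp]; trivial
    exact (Submodule.mem_span_range_iff_exists_fun k).mp h1
  choose t ht using hspan
  have ht' : ∀ q r, ∑ l, C (t q l) * C (al l r) =
      (if r = q then (1 : MvPolynomial (Fin 4) k) else 0) := by
    intro q r
    have h1 := congrFun (ht q) r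
    rw [Finset.sum_apply, Pi.single_apply] at h1
    simp only [Pi.smul_apply, smul_eq_mul] at h1
    have h5 : ∑ l, C (t q l) * C (al l r) = C (σ := Fin 4) (∑ l, t q l * al l r) := by
      rw [map_sum]
      exact Finset.sum_congr rfl fun l _ => by rw [map_mul]
    rw [h5, h1]
    split_ifs
    · exact map_one C
    · exact map_zero C
  set e' : Fin m → MvPolynomial (Fin 4) k := fun l => e l - ∑ q, C (t q l) * (L * x q + M * z q)
    with he'
  have he'0 : ∀ r, ∑ l, e' l * C (al l r) = 0 := by
    intro r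
    have h1 : ∑ l, e' l * C (al l r) = ∑ l, e l * C (al l r) -
        ∑ q, (∑ l, C (t q l) * C (al l r)) * (L * x q + M * z q) := by
      simp only [he', sub_mul, Finset.sum_sub_distrib, Finset.sum_mul]
      congr 1
      rw [Finset.sum_comm]
      refine Finset.sum_congr rfl fun q _ => Finset.sum_congr rfl fun l _ => by ring
    rw [h1, hxz r]
    simp only [ht', ite_mul, one_mul, zero_mul, Finset.sum_ite_eq, Finset.mem_univ, if_true, sub_self]
  set a' : Fin m → MvPolynomial (Fin 4) k := fun l => a l + ll al l * ∑ q, C (t q l) * x q with ha'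
  set b' : Fin m → MvPolynomial (Fin 4) k := fun l => b l + ll al l * ∑ q, C (t q l) * z q with hb'
  have hde : ∀ l, d l = ll al l * e' l + L * a' l + M * b' l := by
    intro l
    have h1 : ∑ q, C (t q l) * (L * x q + M * z q) =
        L * (∑ q, C (t q l) * x q) + M * ∑ q, C (t q l) * z q := by
      rw [Finset.mul_sum, Finset.mul_sum, ← Finset.sum_add_distrib]
      exact Finset.sum_congr rfl fun q _ => by ring
    simp only [he', ha', hb', h1]
    rw [he l]
    ring
  -- the matrices X and Y
  set X' : Matrix (Fin 4) (Fin 4) (MvPolynomial (Fin 4) k) := fun p q => ∑ l, a' l * Cv al l p q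
    with hX'
  set Y' : Matrix (Fin 4) (Fin 4) (MvPolynomial (Fin 4) k) := fun p q => ∑ l, b' l * Cv al l p q
    with hY'
  have hXY : (m : MvPolynomial (Fin 4) k) ^ 2 • st (M • B - L • B') = L • X' + M • Y' := by
    ext1 p q
    simp only [Matrix.smul_apply, Matrix.add_apply, smul_eq_mul]
    have h1 : (m : MvPolynomial (Fin 4) k) ^ 2 * st (M • B - L • B') p q =
        ∑ l, (d l + σ) * Cv al l p q := by
      rw [pow_two, mul_assoc, hc, Finset.mul_sum]
      refine Finset.sum_congr rfl fun l _ => ?_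
      rw [hd]
      ring
    rw [h1]
    have h5 : ∀ l, (d l + σ) * Cv al l p q = e' l * (ll al l * Cv al l p q) +
        L * (a' l * Cv al l p q) + M * (b' l * Cv al l p q) + σ * Cv al l p q := by
      intro l
      rw [hde l]
      ring
    rw [Finset.sum_congr rfl fun l _ => h5 l, Finset.sum_add_distrib, Finset.sum_add_distrib,
      Finset.sum_add_distrib, ← Finset.mul_sum, ← Finset.mul_sum, ← Finset.mul_sum, c3, mul_zero,
      add_zero]
    have h6 : ∑ l, e' l * (ll al l * Cv al l p q) = 0 := by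
      have h7 : ∀ l, e' l * (ll al l * Cv al l p q) =
          f p * (e' l * C (al l q)) - f q * (e' l * C (al l p)) := by
        intro l
        rw [c1]
        ring
      rw [Finset.sum_congr rfl fun l _ => h7 l, Finset.sum_sub_distrib, ← Finset.mul_sum,
        ← Finset.mul_sum, he'0, he'0]
      ring
    rw [h6, zero_add]
  have hgen : ∀ (w : Fin m → MvPolynomial (Fin 4) k)
      (W : Matrix (Fin 4) (Fin 4) (MvPolynomial (Fin 4) k)), (∀ p q, W p q = ∑ l, w l * Cv al l p q) →
      (∀ i, st W i i = 0) ∧ (∀ i j, st W j i = - st W i j) ∧ (st W) *ᵥ f = 0 := by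
    intro w W hW
    have w0 : ∀ i, W i i = 0 := by
      intro i
      rw [hW]
      exact Finset.sum_eq_zero fun l _ => by rw [c6, mul_zero]
    have w1 : ∀ i j, W j i = - W i j := by
      intro i j
      rw [hW, hW, ← Finset.sum_neg_distrib]
      exact Finset.sum_congr rfl fun l _ => by rw [c5]; ring
    obtain ⟨s0, s1, s2, -⟩ := st_main W w0 w1
    obtain ⟨-, -, -, s7⟩ := st_main (st W) s0 s1
    refine ⟨s0, s1, (s7 f).mpr ?_⟩
    rw [s2]
    intro p q r
    rw [hW, hW, hW, Finset.mul_sum, Finset.mul_sum, Finset.mul_sum, ← Finset.sum_add_distrib,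
      ← Finset.sum_add_distrib]
    refine Finset.sum_eq_zero fun l _ => ?_
    have h1 := c2 l p q r
    linear_combination (w l) * h1
  obtain ⟨y0, y1, y2⟩ := hgen b' Y' (fun p q => rfl)
  have hmain : (m : MvPolynomial (Fin 4) k) ^ 2 • (M • B - L • B') = L • st X' + M • st Y' := by
    rw [← st_smul, ← st_smul, ← st_add, ← hXY, st_smul, sDD]
  -- divisibility by L
  have hLdiv : ∀ p q, ∃ w, (m : MvPolynomial (Fin 4) k) ^ 2 * B p q - st Y' p q = L * w := by
    intro p q
    have h1 : M * ((m : MvPolynomial (Fin 4) k) ^ 2 * B p q - st Y' p q) =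
        L * (st X' p q + (m : MvPolynomial (Fin 4) k) ^ 2 * B' p q) := by
      have h5 := congrFun (congrFun hmain p) q
      simp only [Matrix.smul_apply, Matrix.add_apply, Matrix.sub_apply, smul_eq_mul] at h5
      linear_combination h5
    have hPL := hPR k (Submodule.span k {la})
    have h6 : M * ((m : MvPolynomial (Fin 4) k) ^ 2 * B p q - st Y' p q) ∈
        Ideal.span (lin '' (Submodule.span k {la} : Set (Fin 4 → k))) := by
      rw [h1]
      exact Ideal.mul_mem_right _ _ ((hPL.2 la).mpr (Submodule.subset_span (by simp)))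
    have h7 := (hPL.1.mem_or_mem h6).resolve_left fun h =>
      S3_notMem1 h2 ((hPL.2 mu).mp h)
    exact S3_mem1 la _ h7
  choose B'' hB'' using hLdiv
  have hL0 : L ≠ 0 := by
    intro h
    have h1 := ((hPR k ⊥).2 la).mp (by rw [← hL, h]; exact Ideal.zero_mem _)
    rw [Submodule.mem_bot] at h1
    have h5 := h2.ne_zero 0
    simp only [Matrix.cons_val_zero] at h5
    exact h5 h1
  refine ⟨fun p q => C ((m : k) ^ 2)⁻¹ * B'' p q, ?_, ?_, ?_⟩
  · intro i
    have h1 := hB'' i i
    rw [B0, y0, mul_zero, sub_zero] at h1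
    rcases mul_eq_zero.mp h1.symm with h | h
    · exact absurd h hL0
    · simp only
      rw [h, mul_zero]
  · intro i j
    have h1 := hB'' i j
    have h5 := hB'' j i
    rw [B1 i j, y1 i j] at h5
    have h6 : L * (B'' j i + B'' i j) = 0 := by linear_combination (-1 : MvPolynomial (Fin 4) k) * h5 - h1
    rcases mul_eq_zero.mp h6 with h | h
    · exact absurd h hL0
    · simp only
      linear_combination (C ((m : k) ^ 2)⁻¹) * h
  · have h1 : ∀ p, ∑ q, B'' p q * f q = (m : MvPolynomial (Fin 4) k) ^ 2 * s p := by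
      intro p
      have h5 : L * ∑ q, B'' p q * f q = L * ((m : MvPolynomial (Fin 4) k) ^ 2 * s p) := by
        rw [Finset.mul_sum]
        have h6 : ∀ q, L * (B'' p q * f q) =
            (m : MvPolynomial (Fin 4) k) ^ 2 * (B p q * f q) - st Y' p q * f q := by
          intro q
          rw [← mul_assoc, ← hB'']
          ring
        rw [Finset.sum_congr rfl fun q _ => h6 q, Finset.sum_sub_distrib, ← Finset.mul_sum]
        have h7 : ∑ q, B p q * f q = L * s p := by
          have := congrFun B2 p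
          simp only [Pi.smul_apply, smul_eq_mul] at this
          exact this
        have h8 : ∑ q, st Y' p q * f q = 0 := congrFun y2 p
        rw [h7, h8]
        ring
      exact mul_left_cancel₀ hL0 h5
    funext p
    have h5 : ((fun p q => C ((m : k) ^ 2)⁻¹ * B'' p q : Matrix (Fin 4) (Fin 4) (MvPolynomial (Fin 4) k)) *ᵥ f) p =
        C ((m : k) ^ 2)⁻¹ * ∑ q, B'' p q * f q := by
      rw [Finset.mul_sum]
      change ∑ q, (C ((m : k) ^ 2)⁻¹ * B'' p q) * f q = _
      exact Finset.sum_congr rfl fun q _ => by ring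
    rw [h5, h1 p, ← mul_assoc]
    have h6 : C ((m : k) ^ 2)⁻¹ * (m : MvPolynomial (Fin 4) k) ^ 2 = 1 := by
      have h7 : (m : MvPolynomial (Fin 4) k) = C (m : k) := (map_natCast C m).symm
      rw [h7, ← map_pow, ← map_mul, inv_mul_cancel₀ (pow_ne_zero 2 (by exact_mod_cast hm)), map_one]
    rw [h6, one_mul]

end Pool.Agent.T2H84.SJ
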